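import Pool.Agent.Lib.MP_3145b1_co.HS.Spec

/-!
# MP_3145b1_co, project HS: additive maps (`S_HAd`)
-/

set_option autoImplicit false

namespace Pool.Agent.MP3145b1.HS

open Finset Pool.Agent.MP3145b1 Pool.Agent.MP3145b1.RC Pool.Agent.MP3145b1.RD Pool.Agent.MP3145b1.RT Pool.Agent.MP3145b1.AG Pool.Agent.MP3145b1.LD Pool.Agent.MP3145b1.UI

private theorem HAd_inf : Infinite (Module.Basis.ofVectorSpaceIndex ℚ ℝ) := by
  by_contra h
  rw [not_infinite_iff_finite] at h
  have hc : Countable ℝ :=
    (Module.Basis.ofVectorSpace ℚ ℝ).equivFun.injective.countable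
  exact Cardinal.not_countable_real (Set.countable_univ)

/-- **HAd** (additive maps) -/
theorem rHAd : S_HAd := by
  classical
  intro b
  have := HAd_inf
  let B := Module.Basis.ofVectorSpace ℚ ℝ
  let e : ℕ ↪ Module.Basis.ofVectorSpaceIndex ℚ ℝ := Infinite.natEmbedding _
  refine ⟨fun i => B (e i), fun j => B.constr ℚ (fun x => if h : ∃ i, e i = x then b j h.choose else 0), ?_, ?_⟩
  · intro j x y
    exact map_add _ x y
  · intro j i
    have h : ∃ i', e i' = e i := ⟨i, rfl⟩
    have h2 : h.choose = i := e.injective h.choose_spec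
    have h3 := B.constr_basis ℚ (fun x => if h : ∃ i, e i = x then b j h.choose else 0) (e i)
    show B.constr ℚ (fun x => if h : ∃ i, e i = x then b j h.choose else 0) (B (e i)) = b j i
    rw [h3, dif_pos h, h2]

end Pool.Agent.MP3145b1.HS
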