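import Pool.Agent.Lib.MP_3145b1_co.HS.Spec

/-!
# MP_3145b1_co, project HS, module HC1 (sum of the charges of `i`)
-/

set_option autoImplicit false

namespace Pool.Agent.MP3145b1.HS

open Finset Pool.Agent.MP3145b1 Pool.Agent.MP3145b1.RC Pool.Agent.MP3145b1.RD Pool.Agent.MP3145b1.RT Pool.Agent.MP3145b1.AG Pool.Agent.MP3145b1.LD Pool.Agent.MP3145b1.UI

theorem rHC1 (h1 : S_UCls) (h2 : S_HLv) : S_HC1 := by
  intro cl p i n hp
  refine h1 (fun t => p t * (1 - p t)) (fun t => (lv cl p t i : ℝ) + 1) (fun t => cl t = cl i) i n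
    (fun t => ⟨v_nonneg hp t, v_le t⟩) (fun t => ?_) (fun t hit _ hcl => ?_)
  · have : (0 : ℝ) ≤ (lv cl p t i : ℝ) := Nat.cast_nonneg _
    linarith
  · have hmem : i ∈ Sc cl t := (mem_Sc cl t i).2 ⟨hit, hcl.symm⟩
    refine le_trans ?_ ((h2 cl p t hp).2.1 i hmem)
    unfold vs
    refine Finset.sum_le_sum_of_subset_of_nonneg (fun u hu => ?_) fun u _ _ => v_nonneg hp u
    rw [Finset.mem_filter, Finset.mem_Ico] at hu
    rw [Finset.mem_filter, mem_Sc]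
    exact ⟨⟨hu.1.2, hu.2.trans hcl.symm⟩, hu.1.1⟩

end Pool.Agent.MP3145b1.HS
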