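import Pool.Agent.Lib.MP_3145b1_co.HS.Spec

/-!
# MP_3145b1_co, project HS, module HC2: the sum over the classes
-/

set_option autoImplicit false

namespace Pool.Agent.MP3145b1.HS

open Finset Pool.Agent.MP3145b1 Pool.Agent.MP3145b1.RC Pool.Agent.MP3145b1.RD Pool.Agent.MP3145b1.RT Pool.Agent.MP3145b1.AG Pool.Agent.MP3145b1.LD Pool.Agent.MP3145b1.UI

private lemma HC2_term_nonneg (cl : ℕ → ℕ) (p : ℕ → ℝ) (hp : ∀ i, 0 ≤ p i ∧ p i ≤ 1) (t : ℕ) :
    0 ≤ p t * (1 - p t) / ((Rm cl p t : ℝ) + 1) ^ 2 :=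
  div_nonneg (v_nonneg hp t) (sq_nonneg _)

private lemma HC2_class (h1 : S_UCls) (h2 : S_HLv) (cl : ℕ → ℕ) (p : ℕ → ℝ) (n c : ℕ)
    (hp : ∀ i, 0 ≤ p i ∧ p i ≤ 1) :
    ∑ t ∈ (range n).filter (fun t => cl t = c), p t * (1 - p t) / ((Rm cl p t : ℝ) + 1) ^ 2 ≤ 5 := by
  have e1 : ∑ t ∈ (Ico (0 + 1) n).filter (fun t => cl t = c), p t * (1 - p t) / ((Rm cl p t : ℝ) + 1) ^ 2 ≤
      9 / 2 := by
    refine h1 (fun t => p t * (1 - p t)) (fun t => (Rm cl p t : ℝ) + 1) (fun t => cl t = c) 0 n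
      (fun t => ⟨v_nonneg hp t, v_le t⟩) (fun t => ?_) (fun t _ _ hct => ?_)
    · have : (0 : ℝ) ≤ (Rm cl p t : ℝ) := Nat.cast_nonneg _
      linarith
    · refine le_trans ?_ (h2 cl p t hp).2.2.2
      unfold vs
      refine Finset.sum_le_sum_of_subset_of_nonneg (fun u hu => ?_) fun i _ _ => v_nonneg hp i
      rw [Finset.mem_filter, Finset.mem_Ico] at hu
      rw [mem_Sc]
      exact ⟨hu.1.2, hu.2.trans hct.symm⟩
  have e2 : p 0 * (1 - p 0) / ((Rm cl p 0 : ℝ) + 1) ^ 2 ≤ 1 / 4 := by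
    have h3 : (0 : ℝ) ≤ (Rm cl p 0 : ℝ) := Nat.cast_nonneg _
    refine le_trans (div_le_self (v_nonneg hp 0) ?_) (v_le 0)
    nlinarith
  have e3 : (range n).filter (fun t => cl t = c) ⊆
      insert 0 ((Ico (0 + 1) n).filter (fun t => cl t = c)) := by
    intro t ht
    rw [Finset.mem_filter, Finset.mem_range] at ht
    rw [Finset.mem_insert, Finset.mem_filter, Finset.mem_Ico]
    rcases Nat.eq_zero_or_pos t with h0 | h0
    · exact Or.inl h0
    · exact Or.inr ⟨⟨by omega, ht.1⟩, ht.2⟩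
  have e4 : (0 : ℕ) ∉ (Ico (0 + 1) n).filter (fun t => cl t = c) := by
    rw [Finset.mem_filter, Finset.mem_Ico]
    omega
  have e5 := Finset.sum_le_sum_of_subset_of_nonneg e3
    (f := fun t => p t * (1 - p t) / ((Rm cl p t : ℝ) + 1) ^ 2) fun i _ _ => HC2_term_nonneg cl p hp i
  rw [Finset.sum_insert e4] at e5
  linarith

theorem rHC2 (h1 : S_UCls) (h2 : S_HLv) : S_HC2 := by
  intro cl p n D hp hD
  have e1 : ∑ c ∈ range D, ∑ t ∈ (range n).filter (fun t => cl t = c),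
      p t * (1 - p t) / ((Rm cl p t : ℝ) + 1) ^ 2 =
      ∑ t ∈ range n, p t * (1 - p t) / ((Rm cl p t : ℝ) + 1) ^ 2 :=
    Finset.sum_fiberwise_of_maps_to (fun t ht => Finset.mem_range.2 (hD t (Finset.mem_range.1 ht))) _
  rw [← e1]
  refine le_trans (Finset.sum_le_sum fun c _ => HC2_class h1 h2 cl p n c hp) ?_
  rw [Finset.sum_const, Finset.card_range, nsmul_eq_mul]
  linarith

end Pool.Agent.MP3145b1.HS
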