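import Pool.Agent.Lib.MP_3145b1_co.HS.Spec

/-!
# MP_3145b1_co, project HS, module HCg: the variance charge
-/

set_option autoImplicit false

namespace Pool.Agent.MP3145b1.HS

open Finset Pool.Agent.MP3145b1 Pool.Agent.MP3145b1.RC Pool.Agent.MP3145b1.RD Pool.Agent.MP3145b1.RT Pool.Agent.MP3145b1.AG Pool.Agent.MP3145b1.LD Pool.Agent.MP3145b1.UI

private theorem HCg_one (a p : ℕ → ℝ) (t : ℕ) (G : ℝ → ℝ) (y : ℝ) :
    gA (p t) (a t) G y = Av a p {t} G y := by
  have h := Av_insert a p ∅ t (Finset.notMem_empty t) G y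
  rw [Av_empty, Av_empty] at h
  exact h.symm

private theorem HCg_step (a p : ℕ → ℝ) (t : ℕ) (G : ℝ → ℝ) (y : ℝ) :
    Av a p (range t) (fun y' => Av a p {t} G y') y = Av a p (range (t + 1)) G y := by
  have hd : Disjoint (range t) ({t} : Finset ℕ) := by
    rw [Finset.disjoint_singleton_right, Finset.mem_range]
    exact lt_irrefl t
  have e : range (t + 1) = range t ∪ {t} := by
    ext j
    rw [Finset.mem_union, Finset.mem_range, Finset.mem_range, Finset.mem_singleton]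
    omega
  rw [e, Av_union a p _ _ hd]

private theorem HCg_all (a p : ℕ → ℝ) (n t : ℕ) (ht : t < n) (G : ℝ → ℝ) (z : ℝ) :
    Av a p (Ico (t + 1) n) (fun y => Av a p (range (t + 1)) G y) z = Av a p (range n) G z := by
  have hd : Disjoint (Ico (t + 1) n) (range (t + 1)) := by
    rw [Finset.disjoint_left]
    intro j h2 h3
    rw [Finset.mem_Ico] at h2
    rw [Finset.mem_range] at h3
    omega
  have e : range n = Ico (t + 1) n ∪ range (t + 1) := by
    ext j
    rw [Finset.mem_union, Finset.mem_range, Finset.mem_Ico, Finset.mem_range]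
    omega
  rw [e, Av_union a p _ _ hd]

private theorem HCg_Qt (h1 : S_TPar) (a : ℕ → ℝ) {p : ℕ → ℝ} (hp : ∀ i, 0 ≤ p i ∧ p i ≤ 1) (F : ℝ → ℝ)
    (t : ℕ) (y : ℝ) : Qt a p F t y ≤
      Av a p (range (t + 1)) (fun x => F x ^ 2) y - Av a p (range (t + 1)) F y ^ 2 := by
  unfold Qt
  rw [(h1 a p (range t) ∅ (gA (p t) (a t) F) y (Finset.empty_subset _)).2.2.2]
  have e1 : Av a p (range t) (gA (p t) (a t) F) y = Av a p (range (t + 1)) F y := by
    rw [← HCg_step]
    exact Av_congr a p _ (fun x => HCg_one a p t F x) y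
  have e2 : Av a p (range t) (fun x => gA (p t) (a t) F x ^ 2) y ≤
      Av a p (range (t + 1)) (fun x => F x ^ 2) y := by
    rw [← HCg_step]
    refine Av_mono a hp _ (fun x => ?_) y
    rw [HCg_one]
    exact Av_var_nonneg a hp _ F x
  rw [e1]
  linarith

private theorem HCg_Ti (h1 : S_TPar) (a : ℕ → ℝ) {p : ℕ → ℝ} (hp : ∀ i, 0 ≤ p i ∧ p i ≤ 1) (F : ℝ → ℝ)
    (J : Finset ℕ) (z : ℝ) : Av a p J (fun x => F x ^ 2) z - Av a p J F z ^ 2 ≤ Ti a p J F z := by
  rw [← (h1 a p J ∅ F z (Finset.empty_subset _)).2.2.2]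
  unfold Ti
  have hn : ∀ T : Finset ℕ, 0 ≤ wt p T * Co a p J T F z ^ 2 :=
    fun T => mul_nonneg (wt_nonneg hp T) (sq_nonneg _)
  refine le_trans (Finset.sum_le_sum (g := fun T => (T.card : ℝ) * (wt p T * Co a p J T F z ^ 2))
    fun T hT => ?_)
    (Finset.sum_le_sum_of_subset_of_nonneg (Finset.erase_subset _ _) fun T _ _ =>
      mul_nonneg (Nat.cast_nonneg _) (hn T))
  have hc : 1 ≤ T.card := Finset.card_pos.2 (Finset.nonempty_iff_ne_empty.2 (Finset.mem_erase.1 hT).1)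
  have hc' : (1 : ℝ) ≤ (T.card : ℝ) := by exact_mod_cast hc
  have := hn T
  show wt p T * Co a p J T F z ^ 2 ≤ (T.card : ℝ) * (wt p T * Co a p J T F z ^ 2)
  nlinarith

/-- **HCg** (charge) -/
theorem rHCg (h1 : S_TPar) : S_HCg := by
  intro a p n t F z hp ht
  refine le_trans (Av_mono a hp _ (fun y => HCg_Qt h1 a hp F t y) z) ?_
  rw [Av_sub a p _ (fun y => Av a p (range (t + 1)) (fun x => F x ^ 2) y)
    (fun y => Av a p (range (t + 1)) F y ^ 2), HCg_all a p n t ht]
  have h2 := Av_var_nonneg a hp (Ico (t + 1) n) (fun y => Av a p (range (t + 1)) F y) z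
  rw [HCg_all a p n t ht] at h2
  have h3 := HCg_Ti h1 a hp F (range n) z
  linarith

end Pool.Agent.MP3145b1.HS
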