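import Pool.Agent.Lib.MP_3145b1_co.HS.Spec

/-!
HEn (Boolean functions of K halfspaces: the hereditary inequality), module of the project HS (MP_3145b1_co).
-/

set_option autoImplicit false

namespace Pool.Agent.MP3145b1.HS

open Finset Pool.Agent.MP3145b1 Pool.Agent.MP3145b1.RC Pool.Agent.MP3145b1.RD Pool.Agent.MP3145b1.RT Pool.Agent.MP3145b1.AG Pool.Agent.MP3145b1.LD Pool.Agent.MP3145b1.UI

private theorem HEn_Ph (φ : Finset ℕ → Bool) (V : Finset ℕ) :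
    AG.Ph φ (∑ i ∈ V, tw i) = if φ V then (-1 : ℝ) else 1 := by
  have e : ∑ i ∈ V, tw i = ((∑ i ∈ V, 2 ^ i : ℕ) : ℝ) := by
    push_cast
    exact Finset.sum_congr rfl fun i _ => rfl
  rw [AG.Ph, e, Nat.floor_natCast, Finset.toFinset_bitIndices_sum_two_pow]

private theorem HEn_sum {β : ℝ → ℝ} {a w : ℕ → ℝ} (hadd : ∀ x y, β (x + y) = β x + β y) (ha : ∀ i, β (a i) = w i)
    (U : Finset ℕ) : β (∑ i ∈ U, a i) = ∑ i ∈ U, w i := by
  have h0 : β 0 = 0 := by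
    have h := hadd 0 0
    rw [add_zero] at h
    linarith
  induction U using Finset.induction_on with
  | empty => rw [Finset.sum_empty, Finset.sum_empty, h0]
  | insert i U hi ih => rw [Finset.sum_insert hi, Finset.sum_insert hi, hadd, ha, ih]

/-- the condition for the value `-1` -/
private def HEn_P (M K : ℕ) (w : ℕ → ℕ → ℝ) (θ : ℕ → ℝ) (β : ℕ → ℝ → ℝ) (φ : Finset ℕ → Bool) (y : ℝ) : Prop :=
  ∃ U, U ⊆ range M ∧ (∀ j, j < K → (θ j ≤ β j y ↔ θ j ≤ ∑ i ∈ U, w j i)) ∧ φ U = true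

open Classical in
private noncomputable def HEn_F (M K : ℕ) (w : ℕ → ℕ → ℝ) (θ : ℕ → ℝ) (β : ℕ → ℝ → ℝ) (φ : Finset ℕ → Bool)
    (y : ℝ) : ℝ := if HEn_P M K w θ β φ y then -1 else 1

private theorem HEn_FK (M K : ℕ) (w : ℕ → ℕ → ℝ) (θ : ℕ → ℝ) (β : ℕ → ℝ → ℝ) (φ : Finset ℕ → Bool) :
    FK (HEn_F M K w θ β φ) β θ K := by
  constructor
  · intro y
    unfold HEn_F
    split_ifs
    · exact Or.inr rfl
    · exact Or.inl rfl
  · intro y y' h
    have h1 : HEn_P M K w θ β φ y ↔ HEn_P M K w θ β φ y' := by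
      constructor
      · rintro ⟨U, hU, h2, h3⟩
        exact ⟨U, hU, fun j hj => (h j hj).symm.trans (h2 j hj), h3⟩
      · rintro ⟨U, hU, h2, h3⟩
        exact ⟨U, hU, fun j hj => (h j hj).trans (h2 j hj), h3⟩
    unfold HEn_F
    by_cases h2 : HEn_P M K w θ β φ y
    · rw [if_pos h2, if_pos (h1.1 h2)]
    · rw [if_neg h2, if_neg fun h3 => h2 (h1.2 h3)]

theorem rHEn (h1 : S_HAd) (h2 : S_HGK) (h3 : MS.S_MCo) : S_HEn := by
  intro K L D M w θ cl ρ φ p hK hL hp hcl hw hφ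
  obtain ⟨a, β, hadd, ha⟩ := h1 w
  have hFK := HEn_FK M K w θ β φ
  have hFU : ∀ U, U ⊆ range M → HEn_F M K w θ β φ (∑ i ∈ U, a i) = if φ U then (-1 : ℝ) else 1 := by
    intro U hU
    have hs : ∀ j, β j (∑ i ∈ U, a i) = ∑ i ∈ U, w j i := fun j => HEn_sum (hadd j) (ha j) U
    unfold HEn_F
    by_cases h4 : φ U = true
    · rw [if_pos h4, if_pos ⟨U, hU, fun j _ => by rw [hs j], h4⟩]
    · rw [if_neg h4, if_neg]
      rintro ⟨U', hU', h5, h6⟩
      refine h4 ?_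
      rw [hφ U U' hU hU' (fun j hj => by rw [← hs j]; exact h5 j hj)]
      exact h6
  intro J U hJ hU
  have hval : ∀ U', U' ⊆ J → AG.Ph φ (∑ i ∈ U, tw i + ∑ i ∈ U', tw i) =
      HEn_F M K w θ β φ (∑ i ∈ U, a i + ∑ i ∈ U', a i) := by
    intro U' hU'
    have hd : Disjoint U U' := by
      rw [Finset.disjoint_left]
      intro i hi hi'
      exact (Finset.mem_sdiff.1 (hU hi)).2 (hU' hi')
    have hV : U ∪ U' ⊆ range M := by
      intro i hi
      rcases Finset.mem_union.1 hi with h | h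
      · exact (Finset.mem_sdiff.1 (hU h)).1
      · exact hJ (hU' h)
    rw [← Finset.sum_union hd, ← Finset.sum_union hd, HEn_Ph, hFU _ hV]
  have hCo : ∀ T, T ⊆ J → Co tw p J T (AG.Ph φ) (∑ i ∈ U, tw i) =
      Co a p J T (HEn_F M K w θ β φ) (∑ i ∈ U, a i) := fun T hT =>
    h3 tw a p J (AG.Ph φ) (HEn_F M K w θ β φ) (∑ i ∈ U, tw i) (∑ i ∈ U, a i) hval T hT
  have hHs : Hs tw p J (AG.Ph φ) (∑ i ∈ U, tw i) = Hs a p J (HEn_F M K w θ β φ) (∑ i ∈ U, a i) := by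
    unfold Hs
    refine Finset.sum_congr rfl fun T hT => ?_
    rw [hCo T (Finset.mem_powerset.1 (Finset.mem_of_mem_erase hT))]
  have hTi : Ti tw p J (AG.Ph φ) (∑ i ∈ U, tw i) = Ti a p J (HEn_F M K w θ β φ) (∑ i ∈ U, a i) := by
    unfold Ti
    refine Finset.sum_congr rfl fun T hT => ?_
    rw [hCo T (Finset.mem_powerset.1 hT)]
  rw [hHs, hTi]
  exact h2 a p β w θ K L D (HEn_F M K w θ β φ) cl ρ J hp hK hL hadd ha hFK
    (fun t ht => hcl t (Finset.mem_range.1 (hJ ht)))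
    (fun j hj u hu t ht hut hc hr => hw j u t hj (Finset.mem_range.1 (hJ hu)) (Finset.mem_range.1 (hJ ht)) hut hc hr)
    (∑ i ∈ U, a i)

end Pool.Agent.MP3145b1.HS
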