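import Pool.Agent.Lib.MP_3145b1_co.HS.Spec

/-!
# MP_3145b1_co, project HS, module HFn: the final statement `S_HFn`
-/

set_option autoImplicit false

namespace Pool.Agent.MP3145b1.HS

open Finset Pool.Agent.MP3145b1 Pool.Agent.MP3145b1.RC Pool.Agent.MP3145b1.RD Pool.Agent.MP3145b1.RT Pool.Agent.MP3145b1.AG Pool.Agent.MP3145b1.LD Pool.Agent.MP3145b1.UI

/-- the values of the functions of `RG w` -/
private theorem HFn_val (w N : ℕ) (f : (Fin N → Bool) → ℝ) (hf : RG w f) :
    ∀ x, f x = 1 ∨ f x = -1 := by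
  induction hf with
  | const c => intro x; cases c <;> simp
  | var a =>
    intro x
    beta_reduce
    split_ifs
    · exact Or.inr rfl
    · exact Or.inl rfl
  | neg f _ ih =>
    intro x
    beta_reduce
    rcases ih x with h | h
    · exact Or.inr (by rw [h])
    · exact Or.inl (by rw [h]; norm_num)
  | prog P u hP hd _ n s v x0 o hr ih =>
    intro x
    beta_reduce
    split_ifs
    · exact Or.inr rfl
    · exact Or.inl rfl
  | thr P u hP hd _ M a θ1 θ2 ih =>
    intro x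
    beta_reduce
    split_ifs
    · exact Or.inr rfl
    · exact Or.inl rfl
  | sym P u hP hd _ M φ ih =>
    intro x
    beta_reduce
    split_ifs
    · exact Or.inr rfl
    · exact Or.inl rfl

private theorem HFn_hh_le {t : ℝ} (ht : 0 ≤ t) : hh t ≤ 1 - t := by
  unfold hh Real.negMulLog
  rcases ht.eq_or_lt with h | h
  · subst h
    simp
  · have h1 : 1 - t⁻¹ ≤ Real.log t := Real.one_sub_inv_le_log_of_pos h
    have h2 : t * (1 - t⁻¹) ≤ t * Real.log t := mul_le_mul_of_nonneg_left h1 h.le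
    have h3 : t * t⁻¹ = 1 := mul_inv_cancel₀ h.ne'
    have h4 : t * (1 - t⁻¹) = t - 1 := by
      rw [mul_sub, h3, mul_one]
    rw [h4] at h2
    linarith

private theorem HFn_term (c : ℝ) : c ^ 2 * Real.logb 2 (1 / c ^ 2) = hh (c ^ 2) / Real.log 2 := by
  unfold hh Real.negMulLog Real.logb
  rw [one_div, Real.log_inv]
  ring

private theorem HFn_sq_le {N : ℕ} (f : (Fin N → Bool) → ℝ) (hf : ∀ x, f x = 1 ∨ f x = -1)
    (S : Finset (Fin N)) : coeff f S ^ 2 ≤ 1 := by
  have h1 : ∑ T : Finset (Fin N), coeff f T ^ 2 = 1 := by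
    rw [Q.parseval, funext (fun x => (by rcases hf x with h | h <;> rw [h] <;> norm_num :
      f x ^ 2 = (1 : ℝ)))]
    exact Q.mean_const 1
  rw [← h1]
  exact Finset.single_le_sum (f := fun T => coeff f T ^ 2) (fun T _ => sq_nonneg _) (mem_univ S)

/-- the influence is at least the variance -/
private theorem HFn_inf (h1 : S_Vsm) (N : ℕ) (P : ℕ → Finset (Fin N)) (u : ℕ → (Fin N → Bool) → ℝ)
    (hc : Cp P u) (i : ℕ) : 0 ≤ influence (u i) - (1 - coeff (u i) ∅ ^ 2) := by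
  obtain ⟨_, h3, h4, _, h6⟩ := h1 N P u hc i
  rw [← h6, ← h3, ← h4, sub_nonneg]
  refine Finset.sum_le_sum fun R hR => ?_
  have hR1 : R.Nonempty := Finset.nonempty_iff_ne_empty.2 (Finset.ne_of_mem_erase hR)
  have hR2 : (1 : ℝ) ≤ (R.card : ℝ) := by exact_mod_cast Finset.card_pos.2 hR1
  nlinarith [sq_nonneg (coeff (u i) R)]

/-- the constants -/
private theorem HFn_num (K L D : ℕ) (hK : 1 ≤ K) (hL : 1 ≤ L) (hD : 1 ≤ D) :
    1 ≤ Real.log (2 + (K : ℝ) * L * D) ∧
    0 ≤ 200 + 14 * Real.log (32 * ((K : ℝ) * L)) + 7 * Real.log ((D : ℝ) + 1) ∧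
    200 + 14 * Real.log (32 * ((K : ℝ) * L)) + 7 * Real.log ((D : ℝ) + 1) ≤
      270 * Real.log (2 + (K : ℝ) * L * D) := by
  have hK' : (1 : ℝ) ≤ (K : ℝ) := by exact_mod_cast hK
  have hL' : (1 : ℝ) ≤ (L : ℝ) := by exact_mod_cast hL
  have hD' : (1 : ℝ) ≤ (D : ℝ) := by exact_mod_cast hD
  have hKL : (1 : ℝ) ≤ (K : ℝ) * L := one_le_mul_of_one_le_of_one_le hK' hL'
  have hKLD : (K : ℝ) * L ≤ (K : ℝ) * L * D := le_mul_of_one_le_right (by linarith) hD'
  have hKLD2 : (D : ℝ) ≤ (K : ℝ) * L * D := le_mul_of_one_le_left (by linarith) hKL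
  have hX : (1 : ℝ) ≤ Real.log (2 + (K : ℝ) * L * D) := by
    rw [Real.le_log_iff_exp_le (by linarith)]
    have := Real.exp_one_lt_d9
    linarith
  have h32 : Real.log 32 ≤ 3.5 := by
    have h : (32 : ℝ) = 2 ^ 5 := by norm_num
    rw [h, Real.log_pow]
    have := Real.log_two_lt_d9
    push_cast
    linarith
  have h32' : 0 ≤ Real.log 32 := Real.log_nonneg (by norm_num)
  have hs : Real.log (32 * ((K : ℝ) * L)) = Real.log 32 + Real.log ((K : ℝ) * L) :=
    Real.log_mul (by norm_num) (by linarith)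
  have h1 : Real.log ((K : ℝ) * L) ≤ Real.log (2 + (K : ℝ) * L * D) :=
    Real.log_le_log (by linarith) (by linarith)
  have h2 : Real.log ((D : ℝ) + 1) ≤ Real.log (2 + (K : ℝ) * L * D) :=
    Real.log_le_log (by linarith) (by linarith)
  have h3 : 0 ≤ Real.log ((K : ℝ) * L) := Real.log_nonneg hKL
  have h4 : 0 ≤ Real.log ((D : ℝ) + 1) := Real.log_nonneg (by linarith)
  refine ⟨hX, by rw [hs]; linarith, by rw [hs]; linarith⟩

/-- **HFn** (final statement) -/
theorem rHFn (h1 : S_Vsm) (h2 : S_TFin) (h3 : S_AHs) (h4 : S_HEn) : S_HFn := by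
  obtain ⟨C0, hC0, hT⟩ := h2
  have hlog : 0 < Real.log 2 := Real.log_pos one_lt_two
  refine ⟨C0 + 1103 / Real.log 2, by positivity, ?_⟩
  intro w hw N M K L D P u b θ cl ρ φ hK hL hD hP hd hu hcl hb hφ f hf
  have hw1 : (1 : ℝ) ≤ (w : ℝ) := by exact_mod_cast hw
  have hv : ∀ i x, u i x = 1 ∨ u i x = -1 := fun i => HFn_val w N (u i) (hu i)
  have hCp : Cp P u := ⟨hP, hd, hv⟩
  obtain ⟨hX, hc0, hc1⟩ := HFn_num K L D hK hL hD
  set X : ℝ := Real.log (2 + (K : ℝ) * L * D) with hXd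
  set c : ℝ := 200 + 14 * Real.log (32 * ((K : ℝ) * L)) + 7 * Real.log ((D : ℝ) + 1) with hcd
  have hval : ∀ x, f x = 1 ∨ f x = -1 := by
    intro x
    rw [hf x]
    split_ifs
    · exact Or.inr rfl
    · exact Or.inl rfl
  -- the constant
  have hB : (C0 + 1103 / Real.log 2) * (w + X) =
      (Real.log 2 * C0 + 1103) * (w + X) / Real.log 2 := by
    field_simp
  have hB1 : Real.log 2 * C0 * w ≤ (Real.log 2 * C0 + 1103) * (w + X) := by
    have : 0 ≤ Real.log 2 * C0 * X := by positivity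
    nlinarith
  have hB2 : 1103 * X ≤ (Real.log 2 * C0 + 1103) * (w + X) := by
    have h5 : 0 ≤ Real.log 2 * C0 * (w + X) := by positivity
    nlinarith
  rw [hB]
  generalize (Real.log 2 * C0 + 1103) * (w + X) = B at hB1 hB2
  have hB3 : 1 ≤ B := by linarith
  have hsh : ∀ i, Shp B (u i) := by
    intro i
    have h5 := (hT w hw N (u i) (hu i)).1
    have h6 := HFn_inf h1 N P u hCp i
    rw [Finset.sum_congr rfl (fun S _ => HFn_term (coeff (u i) S)), ← Finset.sum_div,
      div_le_iff₀ hlog] at h5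
    unfold Shp
    refine h5.trans ?_
    calc C0 * w * (influence (u i) - (1 - coeff (u i) ∅ ^ 2)) * Real.log 2
        = (Real.log 2 * C0 * w) * (influence (u i) - (1 - coeff (u i) ∅ ^ 2)) := by ring
      _ ≤ B * (influence (u i) - (1 - coeff (u i) ∅ ^ 2)) := mul_le_mul_of_nonneg_right hB1 h6
  have hH : AG.Hd c (pb u) M φ :=
    h4 K L D M b θ cl ρ φ (pb u) hK hL (fun i => (h1 N P u hCp i).1) hcl hb hφ
  have hS := h3 B c N M P u φ hc0 (by linarith) (by linarith) hCp hH hsh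
  rw [← funext hf] at hS
  have hE : ∑ S ∈ (univ : Finset (Finset (Fin N))).erase ∅, hh (coeff f S ^ 2) ≤
      B * (influence f - (1 - coeff f ∅ ^ 2)) := hS
  have g2 : ∑ S ∈ (univ : Finset (Finset (Fin N))).erase ∅, coeff f S ^ 2 * Real.logb 2 (1 / coeff f S ^ 2) ≤
      B / Real.log 2 * (influence f - (1 - coeff f ∅ ^ 2)) := by
    rw [Finset.sum_congr rfl (fun S _ => HFn_term (coeff f S)), ← Finset.sum_div, div_mul_eq_mul_div]
    exact div_le_div_of_nonneg_right hE hlog.le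
  have g3 : specEntropy f ≤ B / Real.log 2 * influence f := by
    unfold specEntropy
    rw [← Finset.add_sum_erase univ (fun S : Finset (Fin N) =>
      coeff f S ^ 2 * Real.logb 2 (1 / coeff f S ^ 2)) (mem_univ ∅)]
    have k4 : coeff f ∅ ^ 2 * Real.logb 2 (1 / coeff f ∅ ^ 2) ≤
        B / Real.log 2 * (1 - coeff f ∅ ^ 2) := by
      rw [HFn_term, div_mul_eq_mul_div]
      refine div_le_div_of_nonneg_right ?_ hlog.le
      have k5 := HFn_hh_le (sq_nonneg (coeff f ∅))
      have k6 := HFn_sq_le f hval ∅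
      have k7 : 1 * (1 - coeff f ∅ ^ 2) ≤ B * (1 - coeff f ∅ ^ 2) :=
        mul_le_mul_of_nonneg_right hB3 (by linarith)
      linarith
    have k8 : B / Real.log 2 * influence f = B / Real.log 2 * (1 - coeff f ∅ ^ 2) +
        B / Real.log 2 * (influence f - (1 - coeff f ∅ ^ 2)) := by ring
    rw [k8]
    exact add_le_add k4 g2
  exact ⟨g2, g3, Q.large f hval _ g3⟩

end Pool.Agent.MP3145b1.HS
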