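import Pool.Agent.Lib.MP_3145b1_co.HS.Spec

/-!
# MP_3145b1_co, project HS, module HGI: gate inequality for any set of variables
-/

set_option autoImplicit false

namespace Pool.Agent.MP3145b1.HS

open Finset Pool.Agent.MP3145b1 Pool.Agent.MP3145b1.RC Pool.Agent.MP3145b1.RD Pool.Agent.MP3145b1.RT Pool.Agent.MP3145b1.AG Pool.Agent.MP3145b1.LD Pool.Agent.MP3145b1.UI

private theorem HGI_Av (a p : ℕ → ℝ) (e : ℕ → ℕ) (H : ℝ → ℝ) (G : Finset ℕ) :
    (∀ i ∈ G, ∀ j ∈ G, e i = e j → i = j) → ∀ z : ℝ,
      Av (fun i => a (e i)) (fun i => p (e i)) G H z = Av a p (G.image e) H z := by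
  induction G using Finset.induction_on with
  | empty =>
    intro _ z
    rw [Finset.image_empty, Av_empty, Av_empty]
  | insert i G hi ih =>
    intro hinj z
    have hi' : e i ∉ G.image e := by
      intro h
      obtain ⟨j, hj, hji⟩ := Finset.mem_image.1 h
      have h4 := hinj j (Finset.mem_insert_of_mem hj) i (Finset.mem_insert_self _ _) hji
      exact hi (h4 ▸ hj)
    have ih' := ih (fun i hi j hj => hinj i (Finset.mem_insert_of_mem hi) j
      (Finset.mem_insert_of_mem hj))
    rw [Finset.image_insert, Av_insert _ _ _ _ hi, Av_insert _ _ _ _ hi', ih' z,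
      ih' (z + a (e i))]

theorem rHGI (h1 : S_UEn) (h2 : S_UTrf) (h3 : S_HGt) : S_HGI := by
  intro a p F cl ρ J D κ hp hF hκ hcl hSM z
  obtain ⟨e, hinj, himg, hsort⟩ := h1 J ρ
  generalize J.card = n at hinj himg hsort
  subst himg
  obtain ⟨hsum, hterm⟩ := h2 a p e n hinj
  have hmem : ∀ t, t < n → e t ∈ (range n).image e := fun t ht =>
    Finset.mem_image_of_mem e (Finset.mem_range.2 ht)
  have hSM' : SM (fun i => a (e i)) (fun i => p (e i)) F (fun i => cl (e i)) n κ := by
    intro t ht G hG hv y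
    have hGn : ∀ u ∈ G, u < t ∧ cl (e u) = cl (e t) := fun u hu =>
      (mem_Sc (fun i => cl (e i)) t u).1 (hG hu)
    have hinjG : ∀ i ∈ G, ∀ j ∈ G, e i = e j → i = j := fun i hi j hj h =>
      hinj i j ((hGn i hi).1.trans ht) ((hGn j hj).1.trans ht) h
    have hvs : vs (fun i => p (e i)) G = vs p (G.image e) := by
      unfold vs
      rw [Finset.sum_image hinjG]
    rw [HGI_Av a p e _ G hinjG y, hvs]
    refine hSM (e t) (hmem t ht) (G.image e) ?_ (by rw [← hvs]; exact hv) y
    intro v hv
    obtain ⟨u, hu, rfl⟩ := Finset.mem_image.1 hv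
    obtain ⟨h4, h5⟩ := hGn u hu
    rw [Finset.mem_filter]
    refine ⟨hmem u (h4.trans ht), fun h => ?_, h5, hsort u t h4.le ht⟩
    have h6 := hinj u t (h4.trans ht) ht h
    omega
  have hg := h3 (fun i => a (e i)) (fun i => p (e i)) F (fun i => cl (e i)) n D κ
    (fun i => hp (e i)) hF hκ (fun t ht => hcl (e t) (hmem t ht)) hSM' z
  have hAv : |Av a p ((range n).image e) F z| ≤ 1 := by
    rw [abs_le]
    constructor
    · have h := Av_le_const a hp ((range n).image e) (F := fun y => -1 * F y) (c := 1)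
        (fun y => by rcases hF y with h | h <;> rw [h] <;> norm_num) z
      rw [Av_mul] at h
      linarith
    · exact Av_le_const a hp ((range n).image e)
        (fun y => by rcases hF y with h | h <;> rw [h] <;> norm_num) z
  have h0 : 0 ≤ wt p ∅ * hh (Co a p ((range n).image e) ∅ F z ^ 2) := by
    refine mul_nonneg (wt_nonneg hp ∅) ?_
    rw [Co_empty]
    exact Real.negMulLog_nonneg (sq_nonneg _) (by
      have h := abs_le.1 hAv
      nlinarith)
  have hle : Hs a p ((range n).image e) F z ≤
      ∑ T ∈ ((range n).image e).powerset, wt p T * hh (Co a p ((range n).image e) T F z ^ 2) := by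
    have hm : (∅ : Finset ℕ) ∈ ((range n).image e).powerset := Finset.empty_mem_powerset _
    rw [← Finset.add_sum_erase _ _ hm]
    unfold Hs
    linarith
  have e1 : ∑ T ∈ ((range n).image e).powerset, wt p T * hh (Co a p ((range n).image e) T F z ^ 2) =
      ∑ T ∈ (range n).powerset, wt (fun i => p (e i)) T *
        hh (Co (fun i => a (e i)) (fun i => p (e i)) (range n) T F z ^ 2) := by
    rw [hsum (fun T => wt p T * hh (Co a p ((range n).image e) T F z ^ 2))]
    refine Finset.sum_congr rfl fun T hT => ?_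
    obtain ⟨_, h5, h6⟩ := hterm T (Finset.mem_powerset.1 hT)
    rw [h5, h6 F z]
  have e2 : Ti a p ((range n).image e) F z =
      ∑ T ∈ (range n).powerset, (T.card : ℝ) * (wt (fun i => p (e i)) T *
        Co (fun i => a (e i)) (fun i => p (e i)) (range n) T F z ^ 2) := by
    unfold Ti
    rw [hsum (fun T => (T.card : ℝ) * (wt p T * Co a p ((range n).image e) T F z ^ 2))]
    refine Finset.sum_congr rfl fun T hT => ?_
    obtain ⟨h4, h5, h6⟩ := hterm T (Finset.mem_powerset.1 hT)
    rw [h4, h5, h6 F z]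
  rw [e1] at hle
  rw [e2]
  exact hle.trans hg

end Pool.Agent.MP3145b1.HS
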