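import Pool.Agent.Lib.MP_3145b1_co.HS.Spec

set_option autoImplicit false

namespace Pool.Agent.MP3145b1.HS

open Finset Pool.Agent.MP3145b1 Pool.Agent.MP3145b1.RC Pool.Agent.MP3145b1.RD Pool.Agent.MP3145b1.RT
open Pool.Agent.MP3145b1.AG Pool.Agent.MP3145b1.LD Pool.Agent.MP3145b1.UI

/-- gate inequality for functions of `K` halfspaces -/
theorem rHGK (h1 : S_HGI) (h2 : S_HSm) : S_HGK := by
  intro a p β w θ K L D F cl ρ J hp hK hL hadd hw hF hcl hmono z
  have hKL : 1 ≤ K * L := Nat.one_le_iff_ne_zero.mpr (Nat.mul_ne_zero (by omega) (by omega))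
  have h := h1 a p F cl ρ J D (K * L) hp hF.1 hKL hcl ?_ z
  · push_cast at h
    exact h
  · intro t ht G hG hV z'
    have h3 := h2 a p β β w θ K L t F G rfl hp hL hadd hw hF ?_ (by linarith) z'
    · push_cast
      exact h3
    · intro j hj u hu
      have hu' := hG hu
      rw [Finset.mem_filter] at hu'
      exact hmono j hj u hu'.1 t ht hu'.2.1 hu'.2.2.1 hu'.2.2.2

end Pool.Agent.MP3145b1.HS
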