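import Pool.Agent.Lib.MP_3145b1_co.HS.Spec

/-!
# MP_3145b1_co, project HS: Littlewood-Offord for biased bits
-/

set_option autoImplicit false

namespace Pool.Agent.MP3145b1.HS

open Finset Pool.Agent.MP3145b1 Pool.Agent.MP3145b1.RC Pool.Agent.MP3145b1.RD Pool.Agent.MP3145b1.RT Pool.Agent.MP3145b1.AG Pool.Agent.MP3145b1.LD Pool.Agent.MP3145b1.UI

/-- Bessel inequality, singletons only -/
private theorem HLO_bessel (h1 : S_TPar) (a p : ℕ → ℝ) (hp : ∀ i, 0 ≤ p i ∧ p i ≤ 1)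
    (G : Finset ℕ) (Y : ℝ → ℝ) (z : ℝ) :
    ∑ u ∈ G, 4 * (p u * (1 - p u)) * Co a p G {u} Y z ^ 2 ≤
      Av a p G (fun y => Y y ^ 2) z - Av a p G Y z ^ 2 := by
  have h := (h1 a p G ∅ Y z (Finset.empty_subset _)).2.2.2
  have hinj : ∑ u ∈ G, 4 * (p u * (1 - p u)) * Co a p G {u} Y z ^ 2 =
      ∑ T ∈ G.image (fun i => ({i} : Finset ℕ)), wt p T * Co a p G T Y z ^ 2 := by
    rw [Finset.sum_image]
    · refine Finset.sum_congr rfl fun u _ => ?_
      unfold wt
      rw [Finset.prod_singleton]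
    · intro i _ j _ hij
      exact Finset.singleton_injective hij
  rw [hinj, ← h]
  refine Finset.sum_le_sum_of_subset_of_nonneg ?_
    (fun T _ _ => mul_nonneg (wt_nonneg hp T) (sq_nonneg _))
  intro T hT
  obtain ⟨i, hi, rfl⟩ := Finset.mem_image.1 hT
  exact Finset.mem_erase.2 ⟨Finset.singleton_ne_empty i,
    Finset.mem_powerset.2 (Finset.singleton_subset_iff.2 hi)⟩

/-- the coefficient at a singleton -/
private theorem HLO_co (a p : ℕ → ℝ) (G : Finset ℕ) (Y : ℝ → ℝ) (u : ℕ) (z : ℝ) :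
    -2 * Co a p G {u} Y z = Av a p (G.erase u) (fun y => Y (y + a u) - Y y) z := by
  unfold Co
  rw [← Av_mul, Finset.sdiff_singleton_eq_erase]
  refine Av_congr a p _ (fun y => ?_) z
  have e : ({u} : Finset ℕ) = insert u ∅ := rfl
  rw [e, Df_insert a ∅ u (Finset.notMem_empty u), Df_empty, Df_empty]
  ring

/-- the same, with the two averages -/
private theorem HLO_co2 (a p : ℕ → ℝ) (G : Finset ℕ) (Y : ℝ → ℝ) (u : ℕ) (z : ℝ) :
    2 * Co a p G {u} Y z = Av a p (G.erase u) Y z - Av a p (G.erase u) Y (z + a u) := by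
  have h := HLO_co a p G Y u z
  rw [Av_sub a p (G.erase u) (fun y => Y (y + a u)) Y z, Av_shift] at h
  linarith

/-- the mean and the two conditional means -/
private theorem HLO_ins (a p : ℕ → ℝ) (G : Finset ℕ) (Y : ℝ → ℝ) (u : ℕ) (hu : u ∈ G) (z : ℝ) :
    Av a p G Y z = p u * Av a p (G.erase u) Y z + (1 - p u) * Av a p (G.erase u) Y (z + a u) := by
  have h := Av_insert a p (G.erase u) u (Finset.notMem_erase u G) Y z
  rwa [Finset.insert_erase hu] at h

/-- a form of the Cauchy-Schwarz inequality -/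
private theorem HLO_cs (G : Finset ℕ) (v f : ℕ → ℝ) (s : ℝ) (hv : ∀ u ∈ G, 0 ≤ v u) (hs : 0 < s)
    (h1 : ∑ u ∈ G, v u = s ^ 2) (h2 : ∑ u ∈ G, v u * f u ^ 2 ≤ 1 / 4) :
    ∑ u ∈ G, v u * f u ≤ s / 2 := by
  have key : ∀ x : ℝ, x ≤ s * x ^ 2 + 1 / (4 * s) := by
    intro x
    have h3 : s * x ^ 2 + 1 / (4 * s) - x = (2 * s * x - 1) ^ 2 / (4 * s) := by
      field_simp
      ring
    have h4 : 0 ≤ (2 * s * x - 1) ^ 2 / (4 * s) := by positivity
    linarith
  calc ∑ u ∈ G, v u * f u ≤ ∑ u ∈ G, (s * (v u * f u ^ 2) + 1 / (4 * s) * v u) := by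
        refine Finset.sum_le_sum fun u hu => ?_
        have h5 := mul_le_mul_of_nonneg_left (key (f u)) (hv u hu)
        calc v u * f u ≤ v u * (s * f u ^ 2 + 1 / (4 * s)) := h5
          _ = s * (v u * f u ^ 2) + 1 / (4 * s) * v u := by ring
    _ = s * ∑ u ∈ G, v u * f u ^ 2 + 1 / (4 * s) * ∑ u ∈ G, v u := by
        rw [Finset.sum_add_distrib, ← Finset.mul_sum, ← Finset.mul_sum]
    _ ≤ s * (1 / 4) + 1 / (4 * s) * s ^ 2 := by
        rw [h1]
        have := mul_le_mul_of_nonneg_left h2 hs.le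
        linarith
    _ = s / 2 := by
        field_simp
        ring

private theorem HLO_Hv01 (τ y : ℝ) : 0 ≤ Hv τ y ∧ Hv τ y ≤ 1 ∧ Hv τ y ^ 2 = Hv τ y := by
  unfold Hv
  split_ifs <;> norm_num

private theorem HLO_Wn01 (θ A y : ℝ) : 0 ≤ Wn θ A y ∧ Wn θ A y ≤ 1 ∧ Wn θ A y ^ 2 = Wn θ A y := by
  unfold Wn
  split_ifs <;> norm_num

private theorem HLO_Hvmono (τ y y' : ℝ) (h : y ≤ y') : Hv τ y ≤ Hv τ y' := by
  unfold Hv
  by_cases h1 : τ ≤ y
  · rw [if_pos h1, if_pos (h1.trans h)]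
  · rw [if_neg h1]
    split_ifs <;> norm_num

/-- the sum of the weighted increments of a function with values `0`, `1` -/
private theorem HLO_step (h1 : S_TPar) (b p : ℕ → ℝ) (hp : ∀ i, 0 ≤ p i ∧ p i ≤ 1) (G : Finset ℕ)
    (Y : ℝ → ℝ) (hY : ∀ y, Y y ^ 2 = Y y) (z s : ℝ) (hs : 0 < s) (hsV : vs p G = s ^ 2) (σ : ℕ → ℝ)
    (hσ : ∀ u, σ u ^ 2 = 1) : ∑ u ∈ G, p u * (1 - p u) * (σ u * (2 * Co b p G {u} Y z)) ≤ s / 2 := by
  apply HLO_cs G (fun u => p u * (1 - p u)) (fun u => σ u * (2 * Co b p G {u} Y z)) s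
    (fun u _ => v_nonneg hp u) hs hsV
  have h2 := HLO_bessel h1 b p hp G Y z
  have h3 : Av b p G (fun y => Y y ^ 2) z = Av b p G Y z := Av_congr b p G hY z
  rw [h3] at h2
  have h4 : ∑ u ∈ G, p u * (1 - p u) * (σ u * (2 * Co b p G {u} Y z)) ^ 2 =
      ∑ u ∈ G, 4 * (p u * (1 - p u)) * Co b p G {u} Y z ^ 2 := by
    refine Finset.sum_congr rfl fun u _ => ?_
    rw [mul_pow, hσ u]
    ring
  rw [h4]
  nlinarith [sq_nonneg (Av b p G Y z - 1 / 2)]

theorem rHLO (h1 : S_TPar) : S_HLO := by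
  intro b p G A θ z hp hA hb hV
  set s := Real.sqrt (vs p G) with hs
  have hs0 : 0 < s := Real.sqrt_pos.2 hV
  have hsV : vs p G = s ^ 2 := (Real.sq_sqrt hV.le).symm
  set q := Av b p G (Wn θ A) z with hq
  have hd : ∀ (τ : ℝ), ∑ u ∈ G, p u * (1 - p u) * Av b p (G.erase u) (fun y => Hv τ (y + b u) - Hv τ y) z ≤
      s / 2 := by
    intro τ
    have h2 := HLO_step h1 b p hp G (Hv τ) (fun y => (HLO_Hv01 τ y).2.2) z s hs0 hsV (fun _ => -1)
      (fun _ => by norm_num)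
    refine le_trans (le_of_eq ?_) h2
    refine Finset.sum_congr rfl fun u _ => ?_
    rw [← HLO_co]
    ring
  have hc1 : ∀ u ∈ G, Av b p (G.erase u) (Wn θ A) (z + b u) ≤
      Av b p (G.erase u) (fun y => Hv (θ - A) (y + b u) - Hv (θ - A) y) z := by
    intro u hu
    rw [← Av_shift]
    refine Av_mono b hp _ (fun y => ?_) z
    have hbu := hb u hu
    by_cases h : θ - A ≤ y + b u ∧ y + b u < θ
    · have e1 : Wn θ A (y + b u) = 1 := if_pos h
      have e2 : Hv (θ - A) (y + b u) = 1 := if_pos h.1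
      have e3 : Hv (θ - A) y = 0 := if_neg (by linarith [h.2])
      rw [e1, e2, e3]
      norm_num
    · have e1 : Wn θ A (y + b u) = 0 := if_neg h
      rw [e1]
      linarith [HLO_Hvmono (θ - A) y (y + b u) (by linarith)]
  have hc0 : ∀ u ∈ G, Av b p (G.erase u) (Wn θ A) z ≤
      Av b p (G.erase u) (fun y => Hv θ (y + b u) - Hv θ y) z := by
    intro u hu
    refine Av_mono b hp _ (fun y => ?_) z
    have hbu := hb u hu
    by_cases h : θ - A ≤ y ∧ y < θ
    · have e1 : Wn θ A y = 1 := if_pos h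
      have e2 : Hv θ (y + b u) = 1 := if_pos (by linarith [h.1])
      have e3 : Hv θ y = 0 := if_neg (by linarith [h.2])
      rw [e1, e2, e3]
      norm_num
    · have e1 : Wn θ A y = 0 := if_neg h
      rw [e1]
      linarith [HLO_Hvmono θ y (y + b u) (by linarith)]
  have hup : ∑ u ∈ G, p u * (1 - p u) *
      (Av b p (G.erase u) (Wn θ A) z + Av b p (G.erase u) (Wn θ A) (z + b u)) ≤ s := by
    have h2 : ∑ u ∈ G, p u * (1 - p u) *
        (Av b p (G.erase u) (Wn θ A) z + Av b p (G.erase u) (Wn θ A) (z + b u)) ≤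
        ∑ u ∈ G, p u * (1 - p u) * Av b p (G.erase u) (fun y => Hv θ (y + b u) - Hv θ y) z +
        ∑ u ∈ G, p u * (1 - p u) *
          Av b p (G.erase u) (fun y => Hv (θ - A) (y + b u) - Hv (θ - A) y) z := by
      rw [← Finset.sum_add_distrib]
      refine Finset.sum_le_sum fun u hu => ?_
      rw [← mul_add]
      exact mul_le_mul_of_nonneg_left (add_le_add (hc0 u hu) (hc1 u hu)) (v_nonneg hp u)
    linarith [hd θ, hd (θ - A)]
  -- the lower bound
  have hlow : ∑ u ∈ G, p u * (1 - p u) *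
      (Av b p (G.erase u) (Wn θ A) z + Av b p (G.erase u) (Wn θ A) (z + b u)) ≥ 2 * s ^ 2 * q - s / 2 := by
    have h2 := HLO_step h1 b p hp G (Wn θ A) (fun y => (HLO_Wn01 θ A y).2.2) z s hs0 hsV
      (fun u => if 0 ≤ Co b p G {u} (Wn θ A) z then 1 else -1)
      (fun u => by split_ifs <;> norm_num)
    have h3 : ∀ u ∈ G, p u * (1 - p u) * (2 * q) -
        p u * (1 - p u) * ((if 0 ≤ Co b p G {u} (Wn θ A) z then 1 else -1) *
          (2 * Co b p G {u} (Wn θ A) z)) ≤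
        p u * (1 - p u) *
          (Av b p (G.erase u) (Wn θ A) z + Av b p (G.erase u) (Wn θ A) (z + b u)) := by
      intro u hu
      rw [← mul_sub]
      refine mul_le_mul_of_nonneg_left ?_ (v_nonneg hp u)
      have h4 := HLO_ins b p G (Wn θ A) u hu z
      rw [← hq] at h4
      have h5 := HLO_co2 b p G (Wn θ A) u z
      have hpu := hp u
      split_ifs with h6
      · nlinarith
      · rw [not_le] at h6
        nlinarith
    have h4 := Finset.sum_le_sum h3
    rw [Finset.sum_sub_distrib, ← Finset.sum_mul] at h4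
    have h5 : ∑ u ∈ G, p u * (1 - p u) = s ^ 2 := hsV
    rw [h5] at h4
    linarith
  rw [le_div_iff₀ hs0]
  have h7 : 2 * s ^ 2 * q ≤ 3 / 2 * s := by linarith
  nlinarith

end Pool.Agent.MP3145b1.HS
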