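import Pool.Agent.Lib.MP_3145b1_co.HS.Spec

/-!
# MP_3145b1_co, project HS, module HLS: weights of both signs, longer windows
-/

set_option autoImplicit false

namespace Pool.Agent.MP3145b1.HS

open Finset Pool.Agent.MP3145b1 Pool.Agent.MP3145b1.RC Pool.Agent.MP3145b1.RD Pool.Agent.MP3145b1.RT
  Pool.Agent.MP3145b1.AG Pool.Agent.MP3145b1.LD Pool.Agent.MP3145b1.UI

private theorem HLS_flip (b p : ℕ → ℝ) (G : Finset ℕ) (Y : ℝ → ℝ) : ∀ z : ℝ,
    Av b p G Y z = Av (aA b) (pA b p) G Y (z + nA b G) := by
  induction G using Finset.induction_on with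
  | empty =>
    intro z
    rw [Av_empty, Av_empty]
    simp [nA]
  | insert i G hi ih =>
    intro z
    have hn : nA b (insert i G) = (if b i < 0 then b i else 0) + nA b G := by
      unfold nA
      rw [Finset.sum_insert hi]
    rw [Av_insert _ _ _ _ hi, Av_insert _ _ _ _ hi, ih z, ih (z + b i), hn]
    by_cases hneg : b i < 0
    · have e1 : z + (b i + nA b G) + aA b i = z + nA b G := by
        unfold aA
        rw [abs_of_neg hneg]
        ring
      have e2 : z + (b i + nA b G) = z + b i + nA b G := by ring
      have e3 : pA b p i = 1 - p i := by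
        unfold pA
        rw [if_pos hneg]
      rw [if_pos hneg, e1, e2, e3]
      ring
    · have e1 : z + (0 + nA b G) + aA b i = z + b i + nA b G := by
        unfold aA
        rw [abs_of_nonneg (not_lt.1 hneg)]
        ring
      have e2 : z + (0 + nA b G) = z + nA b G := by ring
      have e3 : pA b p i = p i := by
        unfold pA
        rw [if_neg hneg]
      rw [if_neg hneg, e1, e2, e3]

private theorem HLS_pA {b p : ℕ → ℝ} (hp : ∀ i, 0 ≤ p i ∧ p i ≤ 1) (i : ℕ) :
    0 ≤ pA b p i ∧ pA b p i ≤ 1 := by
  unfold pA
  split_ifs
  · constructor <;> linarith [(hp i).1, (hp i).2]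
  · exact hp i

private theorem HLS_vs (b p : ℕ → ℝ) (G : Finset ℕ) : vs (pA b p) G = vs p G := by
  unfold vs
  refine Finset.sum_congr rfl fun i _ => ?_
  unfold pA
  split_ifs
  · ring
  · rfl

private theorem HLS_Wn (θ A y : ℝ) : 0 ≤ Wn θ A y := by
  unfold Wn
  split_ifs <;> norm_num

private theorem HLS_cov (τ A y : ℝ) (L : ℕ) (h1 : τ - L * A ≤ y) (h2 : y < τ) :
    1 ≤ ∑ q ∈ range L, Wn (τ - q * A) A y := by
  induction L with
  | zero =>
    exfalso
    rw [Nat.cast_zero, zero_mul, sub_zero] at h1
    linarith
  | succ L ih =>
    rw [Finset.sum_range_succ]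
    by_cases h3 : τ - L * A ≤ y
    · have := ih h3
      have h4 := HLS_Wn (τ - L * A) A y
      linarith
    · have h5 : Wn (τ - L * A) A y = 1 := by
        unfold Wn
        rw [if_pos]
        refine ⟨?_, not_le.1 h3⟩
        rw [Nat.cast_succ] at h1
        linarith
      have h6 : 0 ≤ ∑ q ∈ range L, Wn (τ - q * A) A y :=
        Finset.sum_nonneg fun q _ => HLS_Wn _ _ _
      rw [h5]
      linarith

/-- **HLS** (weights of both signs, longer windows) -/
theorem rHLS (h1 : S_HLO) : S_HLS := by
  intro b p G c θ z L hp hL hc hv
  have hs : 0 < Real.sqrt (vs p G) := Real.sqrt_pos.2 hv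
  have hL0 : (0 : ℝ) < L := by exact_mod_cast hL
  by_cases hc0 : c = 0
  · have e : (fun y : ℝ => if (θ ≤ y ↔ θ ≤ y + c) then (0 : ℝ) else 1) = fun _ => 0 := by
      funext y
      rw [hc0, add_zero, if_pos Iff.rfl]
    rw [e, Av_const]
    positivity
  · have hcp : 0 < |c| := abs_pos.2 hc0
    set A : ℝ := |c| / L with hA
    have hA0 : 0 < A := div_pos hcp hL0
    have hLA : (L : ℝ) * A = |c| := by
      rw [hA]
      exact mul_div_cancel₀ _ hL0.ne'
    have hG : ∀ u ∈ G, A ≤ aA b u := by
      intro u hu
      rw [hA, div_le_iff₀ hL0]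
      unfold aA
      rw [mul_comm]
      exact hc u hu
    obtain ⟨τ, hτ⟩ : ∃ τ : ℝ, ∀ y : ℝ, (if (θ ≤ y ↔ θ ≤ y + c) then (0 : ℝ) else 1) ≤
        ∑ q ∈ range L, Wn (τ - q * A) A y := by
      rcases lt_or_gt_of_ne hc0 with hneg | hpos
      · refine ⟨θ + |c|, fun y => ?_⟩
        split_ifs with h2
        · exact Finset.sum_nonneg fun q _ => HLS_Wn _ _ _
        · apply HLS_cov
          · rw [hLA]
            by_contra h3
            apply h2
            constructor
            · intro h4
              exfalso
              linarith
            · intro h4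
              exfalso
              linarith
          · rw [abs_of_neg hneg]
            by_contra h3
            apply h2
            constructor
            · intro h4
              linarith
            · intro h4
              linarith
      · refine ⟨θ, fun y => ?_⟩
        split_ifs with h2
        · exact Finset.sum_nonneg fun q _ => HLS_Wn _ _ _
        · apply HLS_cov
          · rw [hLA, abs_of_pos hpos]
            by_contra h3
            apply h2
            constructor
            · intro h4
              exfalso
              linarith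
            · intro h4
              exfalso
              linarith
          · by_contra h3
            apply h2
            constructor
            · intro h4
              linarith
            · intro h4
              linarith
    rw [HLS_flip]
    refine (Av_mono (aA b) (HLS_pA hp) G hτ (z + nA b G)).trans ?_
    rw [Av_sum]
    have h3 : ∀ q ∈ range L, Av (aA b) (pA b p) G (Wn (τ - q * A) A) (z + nA b G) ≤
        1 / Real.sqrt (vs p G) := by
      intro q _
      have h4 := h1 (aA b) (pA b p) G A (τ - q * A) (z + nA b G) (HLS_pA hp) hA0 hG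
        (by rw [HLS_vs]; exact hv)
      rw [HLS_vs] at h4
      exact h4
    refine (Finset.sum_le_sum h3).trans (le_of_eq ?_)
    rw [Finset.sum_const, Finset.card_range, nsmul_eq_mul]
    ring

end Pool.Agent.MP3145b1.HS
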