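import Pool.Agent.Lib.MP_3145b1_co.HS.Spec

/-!
# MP_3145b1_co, project HS: levels of the variables of a class
-/

set_option autoImplicit false

namespace Pool.Agent.MP3145b1.HS

open Finset Pool.Agent.MP3145b1 Pool.Agent.MP3145b1.RC Pool.Agent.MP3145b1.RD Pool.Agent.MP3145b1.RT Pool.Agent.MP3145b1.AG Pool.Agent.MP3145b1.LD Pool.Agent.MP3145b1.UI

private theorem HLv_lt (cl : ℕ → ℕ) (p : ℕ → ℝ) (t i : ℕ) :
    512 * vs p ((Sc cl t).filter (fun u => i ≤ u)) < (lv cl p t i : ℝ) + 1 :=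
  Nat.lt_floor_add_one _

private theorem HLv_le (cl : ℕ → ℕ) {p : ℕ → ℝ} (hp : ∀ i, 0 ≤ p i ∧ p i ≤ 1) (t i : ℕ) :
    (lv cl p t i : ℝ) ≤ 512 * vs p ((Sc cl t).filter (fun u => i ≤ u)) :=
  Nat.floor_le (mul_nonneg (by norm_num) (vs_nonneg hp _))

/-- Levels. -/
theorem rHLv : S_HLv := by
  intro cl p t hp
  have hS : 0 ≤ vs p (Sc cl t) := vs_nonneg hp _
  refine ⟨?_, ?_, ?_, ?_⟩
  · intro r hr hrR
    by_cases hex : ∃ i ∈ Sc cl t, r ≤ lv cl p t i
    · obtain ⟨i0, hi0, hmax⟩ : ∃ i0 ∈ (Sc cl t).filter (fun i => r ≤ lv cl p t i),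
          ∀ i ∈ (Sc cl t).filter (fun i => r ≤ lv cl p t i), i ≤ i0 := by
        obtain ⟨i1, hi1, hri1⟩ := hex
        have hne : ((Sc cl t).filter (fun i => r ≤ lv cl p t i)).Nonempty :=
          ⟨i1, Finset.mem_filter.2 ⟨hi1, hri1⟩⟩
        exact ⟨Finset.max' _ hne, Finset.max'_mem _ hne, fun i hi => Finset.le_max' _ i hi⟩
      rw [Finset.mem_filter] at hi0
      have hsub : (Sc cl t).filter (fun u => i0 < u) ⊆ Gc cl p t r := by
        intro i hi
        rw [Finset.mem_filter] at hi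
        rw [mem_Gc]
        refine ⟨(mem_Sc cl t i).1 hi.1, ?_⟩
        by_contra hcon
        have h1 := hmax i (Finset.mem_filter.2 ⟨hi.1, not_lt.1 hcon⟩)
        omega
      have hsplit : vs p ((Sc cl t).filter (fun u => i0 ≤ u)) =
          p i0 * (1 - p i0) + vs p ((Sc cl t).filter (fun u => i0 < u)) := by
        have h1 : (Sc cl t).filter (fun u => i0 ≤ u) =
            insert i0 ((Sc cl t).filter (fun u => i0 < u)) := by
          ext u
          simp only [Finset.mem_filter, Finset.mem_insert]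
          constructor
          · rintro ⟨h1, h2⟩
            rcases Nat.eq_or_lt_of_le h2 with h3 | h3
            · exact Or.inl h3.symm
            · exact Or.inr ⟨h1, h3⟩
          · rintro (h1 | ⟨h1, h2⟩)
            · rw [h1]
              exact ⟨hi0.1, le_refl _⟩
            · exact ⟨h1, h2.le⟩
        rw [h1]
        unfold vs
        rw [Finset.sum_insert (by simp)]
      have h1 := HLv_le cl hp t i0
      have h2 : (r : ℝ) ≤ (lv cl p t i0 : ℝ) := by exact_mod_cast hi0.2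
      have h3 : p i0 * (1 - p i0) ≤ 1 / 4 := v_le i0
      have h4 := vs_mono hp hsub
      linarith
    · push Not at hex
      have hsub : Sc cl t ⊆ Gc cl p t r := fun i hi =>
        (mem_Gc cl p t r i).2 ⟨(mem_Sc cl t i).1 hi, hex i hi⟩
      have h4 := vs_mono hp hsub
      have h5 : (⌊512 * vs p (Sc cl t)⌋₊ : ℝ) ≤ 512 * vs p (Sc cl t) :=
        Nat.floor_le (mul_nonneg (by norm_num) hS)
      have h6 : (r : ℝ) ≤ (⌊512 * vs p (Sc cl t)⌋₊ : ℝ) + 1 := by exact_mod_cast hrR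
      linarith
  · intro i hi
    have h1 := HLv_lt cl p t i
    have h2 : vs p ((Sc cl t).filter (fun u => i < u)) ≤
        vs p ((Sc cl t).filter (fun u => i ≤ u)) := by
      refine vs_mono hp fun u hu => ?_
      rw [Finset.mem_filter] at hu ⊢
      exact ⟨hu.1, hu.2.le⟩
    have h3 : 0 ≤ vs p ((Sc cl t).filter (fun u => i ≤ u)) := vs_nonneg hp _
    linarith
  · intro i _
    have h1 : lv cl p t i ≤ ⌊512 * vs p (Sc cl t)⌋₊ :=
      Nat.floor_mono (mul_le_mul_of_nonneg_left (vs_mono hp (Finset.filter_subset _ _))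
        (by norm_num))
    exact Nat.lt_succ_of_le h1
  · have h1 : 512 * vs p (Sc cl t) < (⌊512 * vs p (Sc cl t)⌋₊ : ℝ) + 1 := Nat.lt_floor_add_one _
    have h2 : (Rm cl p t : ℝ) = (⌊512 * vs p (Sc cl t)⌋₊ : ℝ) + 1 := by
      unfold Rm
      push_cast
      ring
    rw [h2]
    linarith

end Pool.Agent.MP3145b1.HS
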