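import Pool.Agent.Lib.MP_3145b1_co.HS.Spec

/-!
# MP_3145b1_co, project HS, module HNd: the node inequality
-/

set_option autoImplicit false

namespace Pool.Agent.MP3145b1.HS

open Finset Pool.Agent.MP3145b1 Pool.Agent.MP3145b1.RC Pool.Agent.MP3145b1.RD Pool.Agent.MP3145b1.RT Pool.Agent.MP3145b1.AG Pool.Agent.MP3145b1.LD Pool.Agent.MP3145b1.UI

/-- the term of the empty set -/
private theorem HNd_emp (U d : ℝ) (hU : |U| ≤ 1) : d ^ 2 * lg |U| (2 * d) ≤ |d| / 2 := by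
  by_cases hd : d = 0
  · rw [hd]; simp
  have hd0 : 0 < |d| := abs_pos.2 hd
  have h2d : (0 : ℝ) < |2 * d| := abs_pos.2 (mul_ne_zero two_ne_zero hd)
  have e2 : |2 * d| = 2 * |d| := by rw [abs_mul, abs_two]
  have hq : 0 ≤ |U| / |2 * d| := div_nonneg (abs_nonneg _) h2d.le
  have hlog : Real.log (|U| / |2 * d|) ≤ |U| / |2 * d| := by
    rcases hq.eq_or_lt with h0 | h0
    · rw [← h0]; simp
    · have := Real.log_le_sub_one_of_pos h0
      linarith
  have hlg : lg |U| (2 * d) ≤ |U| / |2 * d| := max_le hq hlog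
  have h1 : |U| / |2 * d| ≤ 1 / (2 * |d|) := by
    rw [e2]
    exact div_le_div_of_nonneg_right hU (by positivity)
  have h3 : d ^ 2 * lg |U| (2 * d) ≤ d ^ 2 * (1 / (2 * |d|)) :=
    mul_le_mul_of_nonneg_left (hlg.trans h1) (sq_nonneg _)
  have h4 : d ^ 2 * (1 / (2 * |d|)) = |d| / 2 := by
    rw [← sq_abs]
    field_simp
  rw [h4] at h3
  exact h3

/-- the averages of the half difference -/
private theorem HNd_h {F : ℝ → ℝ} (hF : ∀ y, F y = 1 ∨ F y = -1) (a : ℕ → ℝ) {p : ℕ → ℝ}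
    (hp : ∀ i, 0 ≤ p i ∧ p i ≤ 1) (B : Finset ℕ) (A z : ℝ) :
    |Av a p B (hA A F) z| ≤ Av a p B (fun y => hA A F y ^ 2) z := by
  have hab : ∀ y, |hA A F y| ≤ hA A F y ^ 2 := by
    intro y
    unfold hA
    rcases hF y with h1 | h1 <;> rcases hF (y + A) with h2 | h2 <;> rw [h1, h2] <;> norm_num
  rw [abs_le]
  constructor
  · have h := Av_mono a hp B (F := fun y => -1 * hA A F y ^ 2) (G := hA A F) (fun y => by
      have h1 := neg_abs_le (hA A F y)
      have h2 := hab y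
      linarith) z
    rw [Av_mul a p B (-1) (fun y => hA A F y ^ 2)] at h
    linarith
  · exact Av_mono a hp B (fun y => (le_abs_self _).trans (hab y)) z

/-- the averages of the smoothed function -/
private theorem HNd_g {F : ℝ → ℝ} (hF : ∀ y, F y = 1 ∨ F y = -1) (a : ℕ → ℝ) {p : ℕ → ℝ}
    (hp : ∀ i, 0 ≤ p i ∧ p i ≤ 1) (B : Finset ℕ) {q : ℝ} (h0 : 0 ≤ q) (h1 : q ≤ 1) (A z : ℝ) :
    |Av a p B (gA q A F) z| ≤ 1 := by
  have hg : ∀ y, |gA q A F y| ≤ 1 := by
    intro y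
    unfold gA
    rw [abs_le]
    rcases hF y with h2 | h2 <;> rcases hF (y + A) with h3 | h3 <;> rw [h2, h3] <;>
      constructor <;> linarith
  rw [abs_le]
  constructor
  · have h := Av_mono a hp B (F := fun _ => (-1 : ℝ)) (G := gA q A F)
      (fun y => (abs_le.1 (hg y)).1) z
    rwa [Av_const] at h
  · exact Av_le_const a hp B (fun y => (abs_le.1 (hg y)).2) z

/-- exchange of the sums in the charges -/
private theorem HNd_ch (J S : Finset ℕ) (c : ℕ → ℝ) (x : Finset ℕ → ℝ) :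
    ∑ T ∈ J.powerset.erase ∅, ∑ i ∈ S, (if i ∈ T then c i * x T else 0) =
      ∑ i ∈ S, c i * ∑ T ∈ J.powerset.filter (fun T => i ∈ T), x T := by
  rw [Finset.sum_comm]
  refine Finset.sum_congr rfl fun i _ => ?_
  rw [← Finset.sum_filter, Finset.mul_sum]
  refine Finset.sum_congr ?_ fun _ _ => rfl
  ext T
  simp only [Finset.mem_filter, Finset.mem_erase, Finset.mem_powerset]
  constructor
  · rintro ⟨⟨_, h⟩, h'⟩
    exact ⟨h, h'⟩
  · rintro ⟨h, h'⟩
    refine ⟨⟨?_, h⟩, h'⟩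
    rintro rfl
    exact absurd h' (Finset.notMem_empty i)

theorem rHNd (h1 : S_TPar) (h2 : S_HPt) (h3 : S_HP1) : S_HNd := by
  intro a p F cl n t D κ hp hF hκ hSM ht z
  have hW0 := WW_nonneg a hp F t z
  have hD1 : (1 : ℝ) ≤ (D : ℝ) + 1 := by
    have : (0 : ℝ) ≤ D := Nat.cast_nonneg D
    linarith
  have hL0 : 0 ≤ Real.log ((D : ℝ) + 1) := Real.log_nonneg hD1
  set d : Finset ℕ → ℝ := fun T => Co a p (range t) T (hA (a t) F) z with hd
  set U : Finset ℕ → ℝ := fun T => Co a p (range t) T (gA (p t) (a t) F) z with hU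
  set X : ℝ := 1 / (((D : ℝ) + 1) ^ 2 * ((Rm cl p t : ℝ) + 1) ^ 2) with hX
  have hw : ∀ T, 0 ≤ wt p T := fun T => wt_nonneg hp T
  -- the sum of the squares
  have hS : ∑ T ∈ (range t).powerset, wt p T * d T ^ 2 = WW a p F t z :=
    (h1 a p (range t) ∅ (hA (a t) F) z (Finset.empty_subset _)).1
  have hmem : (∅ : Finset ℕ) ∈ (range t).powerset := Finset.empty_mem_powerset _
  have hw0 : wt p ∅ = 1 := by simp [wt]
  rw [← Finset.add_sum_erase _ _ hmem, hw0, one_mul] at hS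
  -- the pointwise inequality
  have key : ∀ T ∈ (range t).powerset.erase ∅, wt p T * (d T ^ 2 * (1 + lg |U T| (2 * d T))) ≤
      (1 + Real.log ((D : ℝ) + 1)) * (wt p T * d T ^ 2) +
      (∑ r ∈ range (Rm cl p t + 1), (if 1 ≤ r ∧ Disjoint T (Gc cl p t r) then
        (1 : ℝ) / r * (wt p T * d T ^ 2) else 0)) +
      (∑ i ∈ Sc cl t, (if i ∈ T then
        1 / ((lv cl p t i : ℝ) + 1) ^ 2 * (wt p T * U T ^ 2) else 0)) +
      X * (wt p T * U T ^ 2) := by
    intro T hT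
    have h5 := h2 cl p t D T (U T) (d T) hp
    have h7 : d T ^ 2 * (1 + lg |U T| (2 * d T)) ≤ (1 + Real.log ((D : ℝ) + 1)) * d T ^ 2 +
        ∑ r ∈ range (Rm cl p t + 1), (if 1 ≤ r ∧ Disjoint T (Gc cl p t r) then
          (1 : ℝ) / r * d T ^ 2 else 0) +
        ∑ i ∈ Sc cl t, (if i ∈ T then (1 : ℝ) / ((lv cl p t i : ℝ) + 1) ^ 2 * U T ^ 2 else 0) +
        X * U T ^ 2 := by
      linarith
    refine (mul_le_mul_of_nonneg_left h7 (hw T)).trans (le_of_eq ?_)
    rw [mul_add, mul_add, mul_add, Finset.mul_sum, Finset.mul_sum]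
    congr 1
    · congr 1
      · congr 1
        · ring
        · refine Finset.sum_congr rfl fun r _ => ?_
          split_ifs
          · ring
          · rw [mul_zero]
      · refine Finset.sum_congr rfl fun b _ => ?_
        split_ifs
        · ring
        · rw [mul_zero]
    · ring
  have hsum := Finset.sum_le_sum key
  rw [Finset.sum_add_distrib, Finset.sum_add_distrib, Finset.sum_add_distrib, ← Finset.mul_sum,
    ← Finset.mul_sum] at hsum
  have e3 : ∑ T ∈ (range t).powerset.erase ∅, ∑ r ∈ range (Rm cl p t + 1),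
      (if 1 ≤ r ∧ Disjoint T (Gc cl p t r) then (1 : ℝ) / r * (wt p T * d T ^ 2) else 0) ≤
      (3 + 2 * Real.log (32 * (κ : ℝ))) * WW a p F t z :=
    h3 a p F cl n t κ hp hF hκ hSM ht z
  have e4 : ∑ T ∈ (range t).powerset.erase ∅, ∑ i ∈ Sc cl t, (if i ∈ T then
        1 / ((lv cl p t i : ℝ) + 1) ^ 2 * (wt p T * U T ^ 2) else 0) =
      ∑ i ∈ Sc cl t, 1 / ((lv cl p t i : ℝ) + 1) ^ 2 * ch a p F t i z :=
    HNd_ch (range t) (Sc cl t) (fun i => 1 / ((lv cl p t i : ℝ) + 1) ^ 2)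
      (fun T => wt p T * U T ^ 2)
  have e5 : ∑ T ∈ (range t).powerset.erase ∅, wt p T * U T ^ 2 = Qt a p F t z := rfl
  rw [e4, e5] at hsum
  -- the empty set
  have hdW : |d ∅| ≤ WW a p F t z := by
    have h8 := HNd_h hF a hp (range t) (a t) z
    rw [hd]
    dsimp only
    rw [Co_empty]
    exact h8
  have hU1 : |U ∅| ≤ 1 := by
    have h8 := HNd_g hF a hp (range t) (hp t).1 (hp t).2 (a t) z
    rw [hU]
    dsimp only
    rw [Co_empty]
    exact h8
  have h9 := HNd_emp (U ∅) (d ∅) hU1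
  have hNd : Nd a p F t z = wt p ∅ * (d ∅ ^ 2 * (1 + lg |U ∅| (2 * d ∅))) +
      ∑ T ∈ (range t).powerset.erase ∅, wt p T * (d T ^ 2 * (1 + lg |U T| (2 * d T))) :=
    (Finset.add_sum_erase _ _ hmem).symm
  rw [hw0, one_mul] at hNd
  have hS0 : 0 ≤ ∑ T ∈ (range t).powerset.erase ∅, wt p T * d T ^ 2 :=
    Finset.sum_nonneg fun T _ => mul_nonneg (hw T) (sq_nonneg _)
  have h10 : Real.log ((D : ℝ) + 1) * ∑ T ∈ (range t).powerset.erase ∅, wt p T * d T ^ 2 ≤
      Real.log ((D : ℝ) + 1) * WW a p F t z :=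
    mul_le_mul_of_nonneg_left (by linarith [sq_nonneg (d ∅)]) hL0
  rw [hNd]
  linarith

end Pool.Agent.MP3145b1.HS
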