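import Pool.Agent.Lib.MP_3145b1_co.HS.Spec

/-!
# MP_3145b1_co, project HS, module HP1: the small sums
-/

set_option autoImplicit false

namespace Pool.Agent.MP3145b1.HS

open Finset Pool.Agent.MP3145b1 Pool.Agent.MP3145b1.RC Pool.Agent.MP3145b1.RD Pool.Agent.MP3145b1.RT Pool.Agent.MP3145b1.AG Pool.Agent.MP3145b1.LD Pool.Agent.MP3145b1.UI

private theorem HP1_sq {F : ℝ → ℝ} (hF : ∀ y, F y = 1 ∨ F y = -1) (A y : ℝ) :
    |hA A F y| = hA A F y ^ 2 ∧ hA A F y ^ 2 ≤ 1 := by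
  unfold hA
  rcases hF y with h | h <;> rcases hF (y + A) with h' | h' <;> rw [h, h'] <;> norm_num

private theorem HP1_av (a : ℕ → ℝ) {p : ℕ → ℝ} (hp : ∀ i, 0 ≤ p i ∧ p i ≤ 1) (G : Finset ℕ)
    {F : ℝ → ℝ} (hF : ∀ y, F y = 1 ∨ F y = -1) (A z : ℝ) :
    |Av a p G (hA A F) z| ≤ Av a p G (fun y => hA A F y ^ 2) z := by
  rw [abs_le]
  constructor
  · have h := Av_mono a hp G (F := fun y => -1 * hA A F y ^ 2) (G := hA A F) (fun y => by
      have h1 := neg_abs_le (hA A F y)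
      rw [(HP1_sq hF A y).1] at h1
      linarith) z
    rw [Av_mul a p G (-1) (fun y => hA A F y ^ 2)] at h
    linarith
  · exact Av_mono a hp G (fun y => (le_abs_self _).trans (HP1_sq hF A y).1.le) z

private theorem HP1_one (a : ℕ → ℝ) {p : ℕ → ℝ} (hp : ∀ i, 0 ≤ p i ∧ p i ≤ 1) (G : Finset ℕ)
    {F : ℝ → ℝ} (hF : ∀ y, F y = 1 ∨ F y = -1) (A z : ℝ) : |Av a p G (hA A F) z| ≤ 1 :=
  (HP1_av a hp G hF A z).trans (Av_le_const a hp G (fun y => (HP1_sq hF A y).2) z)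

/-- the sets which are disjoint from `G` -/
private theorem HP1_pre (h1 : S_TPar) (a : ℕ → ℝ) {p : ℕ → ℝ} (hp : ∀ i, 0 ≤ p i ∧ p i ≤ 1)
    {J G : Finset ℕ} (hG : G ⊆ J) {A : ℝ} {F : ℝ → ℝ} (hF : ∀ y, F y = 1 ∨ F y = -1) {c : ℝ}
    (H : ∀ z, |Av a p G (hA A F) z| ≤ c) (z : ℝ) :
    ∑ T ∈ J.powerset.filter (fun T => Disjoint T G), wt p T * Co a p J T (hA A F) z ^ 2 ≤
      c * Av a p J (fun y => hA A F y ^ 2) z := by
  rw [(h1 a p J G (hA A F) z hG).2.1, Av_sdiff a p J G hG (fun y => hA A F y ^ 2) z, ← Av_mul]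
  refine Av_mono a hp _ (fun y => ?_) z
  rw [← sq_abs, sq]
  exact mul_le_mul (H y) (HP1_av a hp G hF A y) (abs_nonneg _) ((abs_nonneg _).trans (H y))

private theorem HP1_ext (J : Finset ℕ) (P : Finset ℕ → Prop) [DecidablePred P]
    (f : Finset ℕ → ℝ) {c : ℝ} (hc : 0 ≤ c) (hf : ∀ T, 0 ≤ f T) :
    ∑ T ∈ J.powerset.erase ∅, (if P T then c * f T else 0) ≤
      c * ∑ T ∈ J.powerset.filter P, f T := by
  rw [Finset.mul_sum, Finset.sum_filter]
  refine Finset.sum_le_sum_of_subset_of_nonneg (Finset.erase_subset _ _) fun T _ _ => ?_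
  split_ifs
  · exact mul_nonneg hc (hf T)
  · exact le_rfl

private theorem HP1_num {κ r : ℕ} (hκ : 1 ≤ κ) (hr : 1 ≤ r) {x V : ℝ} (hx : x ≤ 1)
    (hV : (r : ℝ) / 512 - 1 / 4 ≤ V) (h : 1 ≤ V → x ≤ κ / Real.sqrt V) :
    x ≤ ((32 * κ : ℕ) : ℝ) / Real.sqrt r := by
  have hκ' : (1 : ℝ) ≤ κ := by exact_mod_cast hκ
  have hr' : (1 : ℝ) ≤ r := by exact_mod_cast hr
  have hsr : 0 < Real.sqrt r := Real.sqrt_pos.2 (by linarith)
  have e1 : ((32 * κ : ℕ) : ℝ) = 32 * κ := by push_cast; ring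
  rw [e1]
  by_cases h1 : r < 1024
  · refine hx.trans ?_
    rw [le_div_iff₀ hsr, one_mul]
    have h2 : Real.sqrt r ≤ 32 := by
      rw [Real.sqrt_le_left (by norm_num)]
      have : (r : ℝ) < 1024 := by exact_mod_cast h1
      norm_num
      linarith
    linarith
  · have h3 : (1024 : ℝ) ≤ r := by exact_mod_cast not_lt.1 h1
    have h4 : (r : ℝ) / 1024 ≤ V := by linarith
    have h5 : (1 : ℝ) ≤ V := by linarith
    refine (h h5).trans ?_
    have h6 : Real.sqrt r / 32 ≤ Real.sqrt V := by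
      rw [div_le_iff₀ (by norm_num : (0 : ℝ) < 32)]
      have h7 : Real.sqrt V * 32 = Real.sqrt (V * 1024) := by
        rw [Real.sqrt_mul (by linarith), show (1024 : ℝ) = 32 ^ 2 by norm_num,
          Real.sqrt_sq (by norm_num)]
      rw [h7]
      exact Real.sqrt_le_sqrt (by linarith)
    have h8 : 0 < Real.sqrt r / 32 := by positivity
    calc (κ : ℝ) / Real.sqrt V ≤ κ / (Real.sqrt r / 32) :=
          div_le_div_of_nonneg_left (by linarith) h8 h6
      _ = 32 * κ / Real.sqrt r := by field_simp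

theorem rHP1 (h1 : S_TPar) (h2 : S_UHar) (h3 : S_HLv) : S_HP1 := by
  intro a p F cl n t κ hp hF hκ hSM ht z
  obtain ⟨hlev, _, _, _⟩ := h3 cl p t hp
  have hW0 : 0 ≤ WW a p F t z := WW_nonneg a hp F t z
  have hκ1 : 1 ≤ 32 * κ := by omega
  have hκ2 : ((32 * κ : ℕ) : ℝ) = 32 * (κ : ℝ) := by push_cast; ring
  rw [Finset.sum_comm]
  have h5 : ∀ r ∈ range (Rm cl p t + 1), (∑ T ∈ (range t).powerset.erase ∅,
      (if 1 ≤ r ∧ Disjoint T (Gc cl p t r) then
        1 / (r : ℝ) * (wt p T * Co a p (range t) T (hA (a t) F) z ^ 2) else 0)) ≤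
      (if 1 ≤ r then 1 / (r : ℝ) * min 1 (((32 * κ : ℕ) : ℝ) / Real.sqrt r) else 0) *
        WW a p F t z := by
    intro r hrR
    by_cases hr : 1 ≤ r
    · rw [if_pos hr]
      have hr0 : (0 : ℝ) ≤ 1 / (r : ℝ) := by positivity
      simp only [hr, true_and]
      have hG : Gc cl p t r ⊆ range t := fun i hi =>
        Finset.mem_range.2 ((mem_Gc cl p t r i).1 hi).1.1
      have H : ∀ y, |Av a p (Gc cl p t r) (hA (a t) F) y| ≤
          min 1 (((32 * κ : ℕ) : ℝ) / Real.sqrt r) := by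
        intro y
        have h6 := HP1_one a hp (Gc cl p t r) hF (a t) y
        refine le_min h6 ?_
        exact HP1_num hκ hr h6 (hlev r hr (by have := Finset.mem_range.1 hrR; omega))
          (fun hV => hSM t ht _ (Gc_sub cl p t r) hV y)
      have h6 := HP1_pre h1 a hp hG hF H z
      have h7 := HP1_ext (range t) (fun T => Disjoint T (Gc cl p t r))
        (fun T => wt p T * Co a p (range t) T (hA (a t) F) z ^ 2) hr0
        (fun T => mul_nonneg (wt_nonneg hp T) (sq_nonneg _))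
      rw [mul_assoc]
      exact h7.trans (mul_le_mul_of_nonneg_left h6 hr0)
    · rw [if_neg hr, zero_mul]
      exact le_of_eq (Finset.sum_eq_zero fun T _ => if_neg fun h => hr h.1)
  refine (Finset.sum_le_sum h5).trans ?_
  rw [← Finset.sum_mul]
  refine mul_le_mul_of_nonneg_right ?_ hW0
  have h6 := h2 (32 * κ) (Rm cl p t + 1) hκ1
  rw [hκ2] at h6 ⊢
  exact h6

end Pool.Agent.MP3145b1.HS
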