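import Pool.Agent.Lib.MP_3145b1_co.HS.Spec

/-!
# MP_3145b1_co, project HS, module HPt: pointwise inequality
-/

set_option autoImplicit false

namespace Pool.Agent.MP3145b1.HS

open Finset Pool.Agent.MP3145b1 Pool.Agent.MP3145b1.RC Pool.Agent.MP3145b1.RD Pool.Agent.MP3145b1.RT Pool.Agent.MP3145b1.AG Pool.Agent.MP3145b1.LD Pool.Agent.MP3145b1.UI

private theorem HPt_log (n : ℕ) :
    Real.log ((n : ℝ) + 1) ≤ ∑ r ∈ range (n + 1), (if 1 ≤ r then (1 : ℝ) / r else 0) := by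
  induction n with
  | zero => simp
  | succ n ih =>
    rw [Finset.sum_range_succ, if_pos (by omega : 1 ≤ n + 1)]
    have h0 : (0 : ℝ) < (n : ℝ) + 1 := by positivity
    have h1 : Real.log (((n + 1 : ℕ) : ℝ) + 1) =
        Real.log ((n : ℝ) + 1) + Real.log (1 + 1 / ((n : ℝ) + 1)) := by
      rw [← Real.log_mul (by positivity) (by positivity)]
      congr 1
      push_cast
      field_simp
    have h2 : Real.log (1 + 1 / ((n : ℝ) + 1)) ≤ 1 / ((n : ℝ) + 1) := by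
      have := Real.log_le_sub_one_of_pos (show 0 < 1 + 1 / ((n : ℝ) + 1) by positivity)
      linarith
    rw [h1]
    have h3 : ((n + 1 : ℕ) : ℝ) = (n : ℝ) + 1 := by push_cast; ring
    rw [h3]
    linarith

private theorem HPt_pt (U d π : ℝ) (hπ : 0 < π) (hπ1 : π ≤ 1) :
    d ^ 2 * lg |U| (2 * d) ≤ d ^ 2 * ((1 / 2) * Real.log (1 / π)) + π * U ^ 2 := by
  have hr : 0 ≤ π * U ^ 2 := by positivity
  have hl : 0 ≤ Real.log (1 / π) := by
    apply Real.log_nonneg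
    rw [le_div_iff₀ hπ]
    linarith
  have hd2 : 0 ≤ d ^ 2 := sq_nonneg d
  by_cases hd : d = 0
  · subst hd
    simpa using hr
  · unfold lg
    rcases le_or_gt (Real.log (|U| / |2 * d|)) 0 with h | h
    · rw [max_eq_left h, mul_zero]
      have := mul_nonneg hd2 (mul_nonneg (by norm_num : (0 : ℝ) ≤ 1 / 2) hl)
      linarith
    · rw [max_eq_right h.le]
      have hU : U ≠ 0 := by
        rintro rfl
        simp at h
      have hU2 : 0 < U ^ 2 := by positivity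
      have hd3 : 0 < d ^ 2 := by positivity
      have e1 : Real.log (|U| / |2 * d|) = (1 / 2) * Real.log (U ^ 2 / (4 * d ^ 2)) := by
        have e2 : U ^ 2 / (4 * d ^ 2) = (|U| / |2 * d|) ^ 2 := by
          rw [div_pow, sq_abs, sq_abs]
          ring
        rw [e2, Real.log_pow]
        push_cast
        ring
      have e3 : Real.log (U ^ 2 / (4 * d ^ 2)) =
          Real.log (1 / π) + Real.log (π * (U ^ 2 / (4 * d ^ 2))) := by
        rw [← Real.log_mul (by positivity) (by positivity)]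
        congr 1
        field_simp
      have e4 : Real.log (π * (U ^ 2 / (4 * d ^ 2))) ≤ π * (U ^ 2 / (4 * d ^ 2)) := by
        have := Real.log_le_sub_one_of_pos (show 0 < π * (U ^ 2 / (4 * d ^ 2)) by positivity)
        linarith
      have e5 : d ^ 2 * ((1 / 2) * (π * (U ^ 2 / (4 * d ^ 2)))) = π * U ^ 2 / 8 := by
        field_simp
        ring
      have e6 : d ^ 2 * Real.log (|U| / |2 * d|) ≤
          d ^ 2 * ((1 / 2) * Real.log (1 / π) + (1 / 2) * (π * (U ^ 2 / (4 * d ^ 2)))) := by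
        apply mul_le_mul_of_nonneg_left _ hd2
        rw [e1, e3]
        linarith
      rw [mul_add, e5] at e6
      linarith

/-- the sum over the blocks is at most the sum over the variables -/
private theorem HPt_blk (cl : ℕ → ℕ) (p : ℕ → ℝ) (t : ℕ) (T : Finset ℕ) (U : ℝ)
    (hlv : ∀ i ∈ Sc cl t, lv cl p t i < Rm cl p t) :
    ∑ b ∈ range (Rm cl p t + 1), (if ¬ Disjoint T (Bc cl p t b) then (1 : ℝ) / ((b : ℝ) + 1) ^ 2 * U ^ 2 else 0) ≤
      ∑ i ∈ Sc cl t, (if i ∈ T then (1 : ℝ) / ((lv cl p t i : ℝ) + 1) ^ 2 * U ^ 2 else 0) := by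
  have hg : ∀ i, 0 ≤ (if i ∈ T then (1 : ℝ) / ((lv cl p t i : ℝ) + 1) ^ 2 * U ^ 2 else 0) := by
    intro i
    split_ifs
    · positivity
    · exact le_rfl
  rw [← Finset.sum_fiberwise_of_maps_to (s := Sc cl t) (t := range (Rm cl p t + 1))
    (g := fun i => lv cl p t i) (fun i hi => Finset.mem_range.2 (Nat.lt_succ_of_lt (hlv i hi)))]
  refine Finset.sum_le_sum fun b _ => ?_
  by_cases h : Disjoint T (Bc cl p t b)
  · rw [if_neg (fun h' => h' h)]
    exact Finset.sum_nonneg fun i _ => hg i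
  · rw [if_pos h]
    obtain ⟨i, hiT, hiB⟩ := Finset.not_disjoint_iff.1 h
    have h1 := (mem_Bc cl p t b i).1 hiB
    have h2 : i ∈ (Sc cl t).filter (fun i => lv cl p t i = b) :=
      Finset.mem_filter.2 ⟨(mem_Sc cl t i).2 h1.1, h1.2⟩
    have h3 := Finset.single_le_sum
      (f := fun i => if i ∈ T then (1 : ℝ) / ((lv cl p t i : ℝ) + 1) ^ 2 * U ^ 2 else 0)
      (s := (Sc cl t).filter (fun i => lv cl p t i = b)) (fun i _ => hg i) h2
    have h4 : (if i ∈ T then (1 : ℝ) / ((lv cl p t i : ℝ) + 1) ^ 2 * U ^ 2 else 0) =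
        1 / ((b : ℝ) + 1) ^ 2 * U ^ 2 := by
      rw [if_pos hiT, h1.2]
    calc (1 : ℝ) / ((b : ℝ) + 1) ^ 2 * U ^ 2
        = (if i ∈ T then (1 : ℝ) / ((lv cl p t i : ℝ) + 1) ^ 2 * U ^ 2 else 0) := h4.symm
      _ ≤ _ := h3

theorem rHPt (h1 : S_TPtw) (h2 : S_HLv) : S_HPt := by
  intro cl p t D T U d hp
  obtain ⟨-, -, hlv, -⟩ := h2 cl p t hp
  have hD : (0 : ℝ) ≤ (D : ℝ) := Nat.cast_nonneg _
  have hR : (0 : ℝ) ≤ (Rm cl p t : ℝ) := Nat.cast_nonneg _
  have hlogD : 0 ≤ Real.log ((D : ℝ) + 1) := Real.log_nonneg (by linarith)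
  have hd2 : 0 ≤ d ^ 2 := sq_nonneg d
  by_cases hex : ∃ i ∈ Sc cl t, i ∈ T
  · obtain ⟨i, hiS, hiT⟩ := hex
    have h3 := h1 (Rm cl p t + 1) (Bc cl p t) T ⟨lv cl p t i, Nat.lt_succ_of_lt (hlv i hiS), by
      rw [Finset.not_disjoint_iff]
      exact ⟨i, hiT, (mem_Bc cl p t _ i).2 ⟨(mem_Sc cl t i).1 hiS, rfl⟩⟩⟩ U d
    have h4 := HPt_blk cl p t T U hlv
    have h5 : 0 ≤ d ^ 2 * Real.log ((D : ℝ) + 1) := mul_nonneg hd2 hlogD
    have h6 : 0 ≤ 1 / (((D : ℝ) + 1) ^ 2 * ((Rm cl p t : ℝ) + 1) ^ 2) * U ^ 2 := by positivity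
    have h7 : ∑ r ∈ range (Rm cl p t + 1),
        (if 1 ≤ r ∧ Disjoint T ((range r).biUnion (Bc cl p t)) then (1 : ℝ) / r * d ^ 2 else 0) =
        ∑ r ∈ range (Rm cl p t + 1), (if 1 ≤ r ∧ Disjoint T (Gc cl p t r) then (1 : ℝ) / r * d ^ 2 else 0) := rfl
    rw [h7] at h3
    linarith
  · have hdis : ∀ r, Disjoint T (Gc cl p t r) := by
      intro r
      rw [Finset.disjoint_left]
      intro i hiT hiG
      exact hex ⟨i, Gc_sub cl p t r hiG, hiT⟩
    have hX0 : (0 : ℝ) < ((D : ℝ) + 1) * ((Rm cl p t : ℝ) + 1) := by positivity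
    have hX1 : (1 : ℝ) ≤ ((D : ℝ) + 1) * ((Rm cl p t : ℝ) + 1) := by nlinarith
    have h3 := HPt_pt U d (1 / (((D : ℝ) + 1) * ((Rm cl p t : ℝ) + 1)) ^ 2) (by positivity) (by
      rw [div_le_one (by positivity)]
      exact one_le_pow₀ hX1)
    have h4 : (1 / 2 : ℝ) * Real.log (1 / (1 / (((D : ℝ) + 1) * ((Rm cl p t : ℝ) + 1)) ^ 2)) =
        Real.log ((D : ℝ) + 1) + Real.log ((Rm cl p t : ℝ) + 1) := by
      rw [one_div_one_div, Real.log_pow, Real.log_mul (by positivity) (by positivity)]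
      push_cast
      ring
    rw [h4, mul_pow] at h3
    have h5 : d ^ 2 * Real.log ((Rm cl p t : ℝ) + 1) ≤ ∑ r ∈ range (Rm cl p t + 1),
        (if 1 ≤ r ∧ Disjoint T (Gc cl p t r) then (1 : ℝ) / r * d ^ 2 else 0) := by
      calc d ^ 2 * Real.log ((Rm cl p t : ℝ) + 1)
          ≤ d ^ 2 * ∑ r ∈ range (Rm cl p t + 1), (if 1 ≤ r then (1 : ℝ) / r else 0) :=
            mul_le_mul_of_nonneg_left (HPt_log _) hd2
        _ = _ := by
            rw [Finset.mul_sum]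
            refine Finset.sum_congr rfl fun r _ => ?_
            by_cases h : 1 ≤ r
            · rw [if_pos h, if_pos ⟨h, hdis r⟩, mul_comm]
            · rw [if_neg h, if_neg (fun h' => h h'.1), mul_zero]
    have h6 : 0 ≤ ∑ i ∈ Sc cl t, (if i ∈ T then (1 : ℝ) / ((lv cl p t i : ℝ) + 1) ^ 2 * U ^ 2 else 0) := by
      refine Finset.sum_nonneg fun i _ => ?_
      split_ifs
      · positivity
      · exact le_rfl
    rw [mul_add] at h3
    linarith

end Pool.Agent.MP3145b1.HS
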