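import Pool.Agent.Lib.MP_3145b1_co.HS.Spec

set_option autoImplicit false

namespace Pool.Agent.MP3145b1.HS

open Finset Pool.Agent.MP3145b1 Pool.Agent.MP3145b1.RC Pool.Agent.MP3145b1.RD Pool.Agent.MP3145b1.RT Pool.Agent.MP3145b1.AG Pool.Agent.MP3145b1.LD Pool.Agent.MP3145b1.UI

/-- indicator of the points at which the halfspace changes -/
private noncomputable def HSm_X (θ c : ℝ) (y : ℝ) : ℝ := if (θ ≤ y ↔ θ ≤ y + c) then 0 else 1

private theorem HSm_X_nonneg (θ c y : ℝ) : 0 ≤ HSm_X θ c y := by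
  unfold HSm_X
  split_ifs <;> norm_num

private theorem HSm_add (β : ℝ → ℝ) (a w : ℕ → ℝ) (hadd : ∀ x y, β (x + y) = β x + β y)
    (hw : ∀ i, β (a i) = w i) (z : ℝ) (S : Finset ℕ) :
    β (z + ∑ i ∈ S, a i) = β z + ∑ i ∈ S, w i := by
  induction S using Finset.induction_on with
  | empty => simp
  | insert i S hi ih =>
    rw [Finset.sum_insert hi, Finset.sum_insert hi,
      show z + (a i + ∑ j ∈ S, a j) = (z + ∑ j ∈ S, a j) + a i by ring, hadd, ih, hw]
    ring

private theorem HSm_Av (β : ℝ → ℝ) (a p w : ℕ → ℝ) (hadd : ∀ x y, β (x + y) = β x + β y)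
    (hw : ∀ i, β (a i) = w i) (G : Finset ℕ) (X : ℝ → ℝ) (z : ℝ) :
    Av a p G (fun y => X (β y)) z = Av w p G X (β z) := by
  unfold Av
  refine Finset.sum_congr rfl fun S _ => ?_
  dsimp only
  rw [HSm_add β a w hadd hw z S]

private theorem HSm_pt (a : ℕ → ℝ) (β : ℕ → ℝ → ℝ) (w : ℕ → ℕ → ℝ) (θ : ℕ → ℝ) (K t : ℕ)
    (F : ℝ → ℝ) (hadd : ∀ j x y, β j (x + y) = β j x + β j y) (hw : ∀ j i, β j (a i) = w j i)
    (hF : FK F β θ K) (y : ℝ) :
    |hA (a t) F y| ≤ ∑ j ∈ range K, HSm_X (θ j) (w j t) (β j y) := by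
  by_cases hall : ∀ j, j < K → (θ j ≤ β j y ↔ θ j ≤ β j y + w j t)
  · have h1 : F y = F (y + a t) := by
      refine hF.2 y (y + a t) fun j hj => ?_
      rw [hadd, hw]
      exact hall j hj
    have h2 : hA (a t) F y = 0 := by
      unfold hA
      rw [← h1, sub_self, zero_div]
    rw [h2, abs_zero]
    exact Finset.sum_nonneg fun j _ => HSm_X_nonneg _ _ _
  · push Not at hall
    obtain ⟨j, hj, hn⟩ := hall
    have h1 : HSm_X (θ j) (w j t) (β j y) = 1 := by
      unfold HSm_X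
      rw [if_neg]
      intro h
      rcases hn with ⟨h3, h4⟩ | ⟨h3, h4⟩
      · exact absurd (h.1 h3) (not_le.2 h4)
      · exact absurd (h.2 h4) (not_le.2 h3)
    have h2 : HSm_X (θ j) (w j t) (β j y) ≤ ∑ j ∈ range K, HSm_X (θ j) (w j t) (β j y) :=
      Finset.single_le_sum (f := fun j => HSm_X (θ j) (w j t) (β j y))
        (fun i _ => HSm_X_nonneg _ _ _) (Finset.mem_range.2 hj)
    rw [h1] at h2
    refine le_trans ?_ h2
    unfold hA
    rcases hF.1 y with h3 | h3 <;> rcases hF.1 (y + a t) with h4 | h4 <;> rw [h3, h4] <;> norm_num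

theorem rHSm (h1 : S_HLS) : S_HSm := by
  intro a p β b w θ K L t F G _ hp hL hadd hw hF hG hvs z
  have hpt := HSm_pt a β w θ K t F hadd hw hF
  have hup : Av a p G (hA (a t) F) z ≤
      Av a p G (fun y => ∑ j ∈ range K, HSm_X (θ j) (w j t) (β j y)) z :=
    Av_mono a hp G (fun y => (le_abs_self _).trans (hpt y)) z
  have hlo : Av a p G (fun y => (-1) * ∑ j ∈ range K, HSm_X (θ j) (w j t) (β j y)) z ≤
      Av a p G (hA (a t) F) z := by
    refine Av_mono a hp G (fun y => ?_) z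
    have := (neg_abs_le (hA (a t) F y))
    have := hpt y
    linarith
  rw [Av_mul] at hlo
  have hS : Av a p G (fun y => ∑ j ∈ range K, HSm_X (θ j) (w j t) (β j y)) z ≤
      K * L / Real.sqrt (vs p G) := by
    rw [Av_sum a p G (range K) (fun j y => HSm_X (θ j) (w j t) (β j y)) z]
    have h2 : ∀ j ∈ range K, Av a p G (fun y => HSm_X (θ j) (w j t) (β j y)) z ≤
        L / Real.sqrt (vs p G) := by
      intro j hj
      rw [HSm_Av (β j) a p (w j) (hadd j) (hw j) G (HSm_X (θ j) (w j t)) z]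
      exact h1 (w j) p G (w j t) (θ j) (β j z) L hp hL (hG j (Finset.mem_range.1 hj)) hvs
    refine (Finset.sum_le_card_nsmul _ _ _ h2).trans (le_of_eq ?_)
    rw [Finset.card_range, nsmul_eq_mul, mul_div_assoc]
  rw [abs_le]
  constructor <;> linarith

end Pool.Agent.MP3145b1.HS
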