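import Pool.Agent.Lib.MP_3145b1_co.UI.Asm
import Pool.Agent.Lib.MP_3145b1_co.AG.AHt
import Pool.Agent.Lib.MP_3145b1_co.AG.AHs
import Pool.Agent.Lib.MP_3145b1_co.HS.HLv
import Pool.Agent.Lib.MP_3145b1_co.HS.HPt
import Pool.Agent.Lib.MP_3145b1_co.HS.HP1
import Pool.Agent.Lib.MP_3145b1_co.HS.HNd
import Pool.Agent.Lib.MP_3145b1_co.HS.HCg
import Pool.Agent.Lib.MP_3145b1_co.HS.HC1
import Pool.Agent.Lib.MP_3145b1_co.HS.HC2
import Pool.Agent.Lib.MP_3145b1_co.HS.HGt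
import Pool.Agent.Lib.MP_3145b1_co.HS.HGI
import Pool.Agent.Lib.MP_3145b1_co.HS.HLO
import Pool.Agent.Lib.MP_3145b1_co.HS.HLS
import Pool.Agent.Lib.MP_3145b1_co.HS.HAd
import Pool.Agent.Lib.MP_3145b1_co.HS.HSm
import Pool.Agent.Lib.MP_3145b1_co.HS.HGK
import Pool.Agent.Lib.MP_3145b1_co.HS.HEn
import Pool.Agent.Lib.MP_3145b1_co.HS.HFn

/-!
# MP_3145b1_co, project HS: assembly
-/

set_option autoImplicit false

namespace Pool.Agent.MP3145b1.HS

open Finset Pool.Agent.MP3145b1 Pool.Agent.MP3145b1.RC Pool.Agent.MP3145b1.RD Pool.Agent.MP3145b1.RT Pool.Agent.MP3145b1.AG Pool.Agent.MP3145b1.LD Pool.Agent.MP3145b1.UI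

theorem hPt : S_HPt := rHPt rTPtw rHLv

theorem hP1 : S_HP1 := rHP1 rTPar rUHar rHLv

theorem hNd : S_HNd := rHNd rTPar hPt hP1

theorem hCg : S_HCg := rHCg rTPar

theorem hC1 : S_HC1 := rHC1 rUCls rHLv

theorem hC2 : S_HC2 := rHC2 rUCls rHLv

theorem hGt : S_HGt := rHGt uTel uInf uChg hNd hCg hC1 hC2

theorem hGI : S_HGI := rHGI rUEn rUTrf hGt

theorem hLO : S_HLO := rHLO rTPar

theorem hLS : S_HLS := rHLS hLO

theorem hSm : S_HSm := rHSm hLS

theorem hGK : S_HGK := rHGK hGI hSm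

/-- Boolean functions of `K` halfspaces of the same variables: the hereditary entropy inequality -/
theorem hEn : S_HEn := rHEn rHAd hGK MS.rMCo

/-- the entropy-influence inequality for Boolean functions of `K` halfspaces of the same inputs -/
theorem hFn : S_HFn := rHFn aVsm fin (rAHs aVsm tCfo tCmp (rAHt rTPar uAHr)) hEn

end Pool.Agent.MP3145b1.HS
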