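import Pool.Agent.Lib.MP_3145b1_co.HS.Spec

/-!
# MP_3145b1_co, project HS, module HGt: the gate inequality for the variables `range n`

The telescoped node costs are bounded by the node inequality; the charges are collected at the charged variable,
the variance charges at the classes.
-/

set_option autoImplicit false

namespace Pool.Agent.MP3145b1.HS

open Finset Pool.Agent.MP3145b1 Pool.Agent.MP3145b1.RC Pool.Agent.MP3145b1.RD Pool.Agent.MP3145b1.RT Pool.Agent.MP3145b1.AG Pool.Agent.MP3145b1.LD Pool.Agent.MP3145b1.UI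

private theorem HGt_exchange (cl : ℕ → ℕ) (n : ℕ) (f : ℕ → ℕ → ℝ) :
    ∑ t ∈ range n, ∑ i ∈ Sc cl t, f t i =
      ∑ i ∈ range n, ∑ t ∈ (Ico (i + 1) n).filter (fun t => cl t = cl i), f t i := by
  refine Finset.sum_comm' ?_
  intro t i
  rw [mem_Sc, Finset.mem_filter, Finset.mem_range, Finset.mem_range, Finset.mem_Ico]
  constructor
  · rintro ⟨h1, h2, h3⟩
    exact ⟨⟨⟨by omega, h1⟩, h3.symm⟩, by omega⟩
  · rintro ⟨⟨⟨h1, h2⟩, h3⟩, h4⟩
    exact ⟨h2, by omega, h3.symm⟩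

private theorem HGt_const (D : ℕ) : 28 * (1 / ((D : ℝ) + 1) ^ 2) * (5 * (D : ℝ)) ≤ 35 := by
  have h0 : (0 : ℝ) ≤ (D : ℝ) := Nat.cast_nonneg D
  have h1 : (0 : ℝ) < ((D : ℝ) + 1) ^ 2 := by positivity
  rw [show 28 * (1 / ((D : ℝ) + 1) ^ 2) * (5 * (D : ℝ)) = 140 * (D : ℝ) / ((D : ℝ) + 1) ^ 2 by ring,
    div_le_iff₀ h1]
  nlinarith [sq_nonneg ((D : ℝ) - 1)]

private theorem HGt_Iv {a p : ℕ → ℝ} (hp : ∀ i, 0 ≤ p i ∧ p i ≤ 1) (F : ℝ → ℝ) (n t : ℕ) (z : ℝ) :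
    0 ≤ Iv a p F n t z := by
  unfold Iv
  exact Av_nonneg a hp _ (fun y => sq_nonneg _) z

private theorem HGt_node (h2 : S_UInf) (h3 : S_UChg) (h4 : S_HNd) (h5 : S_HCg) (a p : ℕ → ℝ) (F : ℝ → ℝ)
    (cl : ℕ → ℕ) (n D κ t : ℕ) (hp : ∀ i, 0 ≤ p i ∧ p i ≤ 1) (hF : ∀ y, F y = 1 ∨ F y = -1) (hκ : 1 ≤ κ)
    (hS : SM a p F cl n κ) (ht : t < n) (z : ℝ) :
    Av a p (Ico (t + 1) n) (Nd a p F t) z ≤
      (5 + 2 * Real.log (32 * (κ : ℝ)) + Real.log ((D : ℝ) + 1)) * Iv a p F n t z +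
      ∑ i ∈ Sc cl t, 1 / ((lv cl p t i : ℝ) + 1) ^ 2 * (4 * (p i * (1 - p i)) * Iv a p F n i z) +
      1 / (((D : ℝ) + 1) ^ 2 * ((Rm cl p t : ℝ) + 1) ^ 2) * Ti a p (range n) F z := by
  have e1 := Av_mono a hp (Ico (t + 1) n) (F := Nd a p F t)
    (G := fun y => ((5 + 2 * Real.log (32 * (κ : ℝ)) + Real.log ((D : ℝ) + 1)) * WW a p F t y +
      ∑ i ∈ Sc cl t, 1 / ((lv cl p t i : ℝ) + 1) ^ 2 * ch a p F t i y) +
      1 / (((D : ℝ) + 1) ^ 2 * ((Rm cl p t : ℝ) + 1) ^ 2) * Qt a p F t y)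
    (fun y => h4 a p F cl n t D κ hp hF hκ hS ht y) z
  rw [Av_add a p (Ico (t + 1) n)
      (fun y => (5 + 2 * Real.log (32 * (κ : ℝ)) + Real.log ((D : ℝ) + 1)) * WW a p F t y +
        ∑ i ∈ Sc cl t, 1 / ((lv cl p t i : ℝ) + 1) ^ 2 * ch a p F t i y)
      (fun y => 1 / (((D : ℝ) + 1) ^ 2 * ((Rm cl p t : ℝ) + 1) ^ 2) * Qt a p F t y) z,
    Av_add a p (Ico (t + 1) n)
      (fun y => (5 + 2 * Real.log (32 * (κ : ℝ)) + Real.log ((D : ℝ) + 1)) * WW a p F t y)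
      (fun y => ∑ i ∈ Sc cl t, 1 / ((lv cl p t i : ℝ) + 1) ^ 2 * ch a p F t i y) z,
    Av_mul a p (Ico (t + 1) n) (5 + 2 * Real.log (32 * (κ : ℝ)) + Real.log ((D : ℝ) + 1)) (WW a p F t) z,
    Av_mul a p (Ico (t + 1) n) (1 / (((D : ℝ) + 1) ^ 2 * ((Rm cl p t : ℝ) + 1) ^ 2)) (Qt a p F t) z,
    Av_sum a p (Ico (t + 1) n) (Sc cl t) (fun i y => 1 / ((lv cl p t i : ℝ) + 1) ^ 2 * ch a p F t i y) z,
    ← (h2 a p n F z).2 t ht] at e1
  refine e1.trans ?_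
  refine add_le_add (add_le_add le_rfl (Finset.sum_le_sum fun i hi => ?_)) ?_
  · rw [Av_mul a p (Ico (t + 1) n) (1 / ((lv cl p t i : ℝ) + 1) ^ 2) (ch a p F t i) z]
    exact mul_le_mul_of_nonneg_left (h3 a p n t i F z hp ((mem_Sc cl t i).1 hi).1 ht) (by positivity)
  · exact mul_le_mul_of_nonneg_left (h5 a p n t F z hp ht) (by positivity)

/-- **HGt**, the gate inequality for the variables `range n`. -/
theorem rHGt (h1 : S_UTel) (h2 : S_UInf) (h3 : S_UChg) (h4 : S_HNd) (h5 : S_HCg) (h6 : S_HC1) (h7 : S_HC2) :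
    S_HGt := by
  intro a p F cl n D κ hp hF hκ hcl hS z
  have hv : ∀ i, 0 ≤ p i * (1 - p i) := fun i => mul_nonneg (hp i).1 (by linarith [(hp i).2])
  have hI : ∀ i, 0 ≤ Iv a p F n i z := fun i => HGt_Iv hp F n i z
  have hTi : Ti a p (range n) F z = ∑ t ∈ range n, 4 * (p t * (1 - p t)) * Iv a p F n t z :=
    (h2 a p n F z).1
  have hT0 : 0 ≤ Ti a p (range n) F z := by
    rw [hTi]
    exact Finset.sum_nonneg fun i _ => mul_nonneg (mul_nonneg (by norm_num) (hv i)) (hI i)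
  refine (h1 a p n F hp hF z).trans ?_
  have s1 : ∑ t ∈ range n, 28 * (p t * (1 - p t)) * Av a p (Ico (t + 1) n) (Nd a p F t) z ≤
      ∑ t ∈ range n, (7 * (5 + 2 * Real.log (32 * (κ : ℝ)) + Real.log ((D : ℝ) + 1)) *
        (4 * (p t * (1 - p t)) * Iv a p F n t z) +
        28 * (∑ i ∈ Sc cl t, p t * (1 - p t) / ((lv cl p t i : ℝ) + 1) ^ 2 *
          (4 * (p i * (1 - p i)) * Iv a p F n i z)) +
        28 * (1 / ((D : ℝ) + 1) ^ 2) * Ti a p (range n) F z *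
          (p t * (1 - p t) / ((Rm cl p t : ℝ) + 1) ^ 2)) := by
    refine Finset.sum_le_sum fun t ht => ?_
    have e := HGt_node h2 h3 h4 h5 a p F cl n D κ t hp hF hκ hS (Finset.mem_range.1 ht) z
    have e' := mul_le_mul_of_nonneg_left e (mul_nonneg (by norm_num : (0 : ℝ) ≤ 28) (hv t))
    refine e'.trans (le_of_eq ?_)
    rw [mul_add, mul_add]
    congr 1
    · congr 1
      · ring
      · rw [Finset.mul_sum, Finset.mul_sum]
        exact Finset.sum_congr rfl fun i _ => by ring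
    · rw [one_div, one_div, mul_inv]
      ring
  refine s1.trans ?_
  rw [Finset.sum_add_distrib, Finset.sum_add_distrib, ← Finset.mul_sum, ← Finset.mul_sum, ← Finset.mul_sum,
    HGt_exchange cl n (fun t i => p t * (1 - p t) / ((lv cl p t i : ℝ) + 1) ^ 2 *
          (4 * (p i * (1 - p i)) * Iv a p F n i z)), ← hTi]
  have s2 : ∑ i ∈ range n, ∑ t ∈ (Ico (i + 1) n).filter (fun t => cl t = cl i),
      p t * (1 - p t) / ((lv cl p t i : ℝ) + 1) ^ 2 * (4 * (p i * (1 - p i)) * Iv a p F n i z) ≤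
      9 / 2 * Ti a p (range n) F z := by
    rw [hTi, Finset.mul_sum]
    refine Finset.sum_le_sum fun i _ => ?_
    rw [← Finset.sum_mul]
    exact mul_le_mul_of_nonneg_right (h6 cl p i n hp)
      (mul_nonneg (mul_nonneg (by norm_num) (hv i)) (hI i))
  have s3 := mul_le_mul_of_nonneg_left (h7 cl p n D hp hcl)
    (show (0 : ℝ) ≤ 28 * (1 / ((D : ℝ) + 1) ^ 2) * Ti a p (range n) F z from
      mul_nonneg (by positivity) hT0)
  have s4 : 28 * (1 / ((D : ℝ) + 1) ^ 2) * Ti a p (range n) F z * (5 * (D : ℝ)) ≤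
      35 * Ti a p (range n) F z := by
    have e := mul_le_mul_of_nonneg_right (HGt_const D) hT0
    linarith
  linarith

end Pool.Agent.MP3145b1.HS
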