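import Pool.Agent.Lib.MP_3145b1_co.UI.Spec3

/-!
# MP_3145b1_co, project HS (architect helper90): Boolean functions of `K` halfspaces of the same variables

THEOREM (note 5274). There is an absolute constant `C`: let `l_j = ∑ b_j i [u_i = -1]`, `j < K`, be linear forms and suppose that the inputs are divided into `D` ordered classes such that
`|b_j i| ≤ L |b_j u|` if `u` is before `i` in the same class (for all `j`). Then every Boolean function of the `K` bits `[θ_j ≤ l_j]` satisfies, for all biases and all restrictions, the plain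
entropy inequality with the constant `200 + 14 log (32 K L) + 7 log (D + 1)`, so it is a gate of the classes of project AG, and `Ent(f) ≤ C (w + log (2 + K L D)) I(f)` for `u_i` in `RG w`.

RULES. Module X: file Pool/Agent/Lib/MP_3145b1_co/HS/X.lean, `import Pool.Agent.Lib.MP_3145b1_co.HS.Spec`,
`set_option autoImplicit false`, `namespace Pool.Agent.MP3145b1.HS`,
`open Finset Pool.Agent.MP3145b1 Pool.Agent.MP3145b1.RC Pool.Agent.MP3145b1.RD Pool.Agent.MP3145b1.RT Pool.Agent.MP3145b1.AG Pool.Agent.MP3145b1.LD Pool.Agent.MP3145b1.UI`, final theorem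
`theorem rX (h1 : S_A) ... : S_X` (the statements under Uses, in this order, are the hypotheses). Auxiliary lemmas
private, names X_. READ FIRST: RT/Def.lean (Av, Df, Co, gA, hA and all basic lemmas), UI/Spec.lean (WW, ch, Nd, Iv) and the definitions below. The name `Hd` is ambiguous: write `AG.Hd`.
Notation in the proofs: `v_i = p i (1 - p i)`, `h = hA (a t) F`, `g = gA (p t) (a t) F`, `d = Co a p (range t) T h z`, `U = Co a p (range t) T g z`. For values `1, -1` of `F`: `|h| = h^2 ≤ 1`, `|g| ≤ 1`.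
-/

set_option autoImplicit false

namespace Pool.Agent.MP3145b1.HS

open Finset Pool.Agent.MP3145b1 Pool.Agent.MP3145b1.RC Pool.Agent.MP3145b1.RD Pool.Agent.MP3145b1.RT Pool.Agent.MP3145b1.AG Pool.Agent.MP3145b1.LD Pool.Agent.MP3145b1.UI

/-- the variables before `t` in the class of `t` -/
def Sc (cl : ℕ → ℕ) (t : ℕ) : Finset ℕ := (range t).filter (fun u => cl u = cl t)

/-- total variance of the bits of `B` -/
noncomputable def vs (p : ℕ → ℝ) (B : Finset ℕ) : ℝ := ∑ i ∈ B, p i * (1 - p i)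

/-- level of `i` for the step `t` -/
noncomputable def lv (cl : ℕ → ℕ) (p : ℕ → ℝ) (t i : ℕ) : ℕ := ⌊512 * vs p ((Sc cl t).filter (fun u => i ≤ u))⌋₊

/-- the variables before `t` in the class of `t` of the level `b` -/
noncomputable def Bc (cl : ℕ → ℕ) (p : ℕ → ℝ) (t b : ℕ) : Finset ℕ := (Sc cl t).filter (fun i => lv cl p t i = b)

/-- the variables before `t` in the class of `t` of a level smaller than `r` -/
noncomputable def Gc (cl : ℕ → ℕ) (p : ℕ → ℝ) (t r : ℕ) : Finset ℕ := (range r).biUnion (Bc cl p t)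

/-- a number larger than all levels -/
noncomputable def Rm (cl : ℕ → ℕ) (p : ℕ → ℝ) (t : ℕ) : ℕ := ⌊512 * vs p (Sc cl t)⌋₊ + 1

/-- the variance charge of the step `t` -/
noncomputable def Qt (a p : ℕ → ℝ) (F : ℝ → ℝ) (t : ℕ) (z : ℝ) : ℝ :=
  ∑ T ∈ (range t).powerset.erase ∅, wt p T * Co a p (range t) T (gA (p t) (a t) F) z ^ 2

/-- small mean property: the mean over any set `G` of earlier variables of the class of `t` of the derivative is small -/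
def SM (a p : ℕ → ℝ) (F : ℝ → ℝ) (cl : ℕ → ℕ) (n : ℕ) (κ : ℝ) : Prop :=
  ∀ t, t < n → ∀ G, G ⊆ Sc cl t → 1 ≤ vs p G → ∀ z, |Av a p G (hA (a t) F) z| ≤ κ / Real.sqrt (vs p G)

theorem mem_Sc (cl : ℕ → ℕ) (t u : ℕ) : u ∈ Sc cl t ↔ u < t ∧ cl u = cl t := by
  unfold Sc; rw [Finset.mem_filter, Finset.mem_range]

theorem mem_Bc (cl : ℕ → ℕ) (p : ℕ → ℝ) (t b i : ℕ) : i ∈ Bc cl p t b ↔ (i < t ∧ cl i = cl t) ∧ lv cl p t i = b := by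
  unfold Bc; rw [Finset.mem_filter, mem_Sc]

theorem mem_Gc (cl : ℕ → ℕ) (p : ℕ → ℝ) (t r i : ℕ) : i ∈ Gc cl p t r ↔ (i < t ∧ cl i = cl t) ∧ lv cl p t i < r := by
  unfold Gc
  rw [Finset.mem_biUnion]
  constructor
  · rintro ⟨b, hb, hi⟩
    rw [mem_Bc] at hi
    exact ⟨hi.1, by rw [hi.2]; exact Finset.mem_range.1 hb⟩
  · rintro ⟨h1, h2⟩
    exact ⟨lv cl p t i, Finset.mem_range.2 h2, (mem_Bc cl p t _ i).2 ⟨h1, rfl⟩⟩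

theorem Gc_sub (cl : ℕ → ℕ) (p : ℕ → ℝ) (t r : ℕ) : Gc cl p t r ⊆ Sc cl t := fun i hi =>
  (mem_Sc cl t i).2 ((mem_Gc cl p t r i).1 hi).1

theorem v_nonneg {p : ℕ → ℝ} (hp : ∀ i, 0 ≤ p i ∧ p i ≤ 1) (i : ℕ) : 0 ≤ p i * (1 - p i) :=
  mul_nonneg (hp i).1 (by linarith [(hp i).2])

theorem v_le {p : ℕ → ℝ} (i : ℕ) : p i * (1 - p i) ≤ 1 / 4 := by nlinarith [sq_nonneg (p i - 1 / 2)]

theorem vs_nonneg {p : ℕ → ℝ} (hp : ∀ i, 0 ≤ p i ∧ p i ≤ 1) (B : Finset ℕ) : 0 ≤ vs p B :=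
  Finset.sum_nonneg fun i _ => v_nonneg hp i

theorem vs_mono {p : ℕ → ℝ} (hp : ∀ i, 0 ≤ p i ∧ p i ≤ 1) {B C : Finset ℕ} (h : B ⊆ C) : vs p B ≤ vs p C :=
  Finset.sum_le_sum_of_subset_of_nonneg h fun i _ _ => v_nonneg hp i

/-! ## Part 1: the node inequality -/

/-- **HLv** (levels). Uses: nothing.
Proof. `S = Sc cl t`. (1) If some `i ∈ S` has `r ≤ lv i`: let `i0` be the largest such `i`. Every `i ∈ S` with `i0 < i` has `lv i < r`, so it is in `Gc r`; `r ≤ lv i0 ≤ 512 vs (S.filter (i0 ≤ ·))` (Nat.floor_le), and `vs (S.filter (i0 ≤ ·)) = v_{i0} + vs (S.filter (i0 < ·)) ≤ 1/4 + vs (Gc r)`. Otherwise `Gc r = S`, and `r - 1 ≤ ⌊512 vs S⌋₊ ≤ 512 vs S`.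
(2) `vs (S.filter (i < ·)) ≤ vs (S.filter (i ≤ ·)) ≤ (lv i + 1)/512` (Nat.lt_floor_add_one). (3) `vs (S.filter ..) ≤ vs S`, Nat.floor_mono. (4) Nat.lt_floor_add_one. -/
def S_HLv : Prop := ∀ (cl : ℕ → ℕ) (p : ℕ → ℝ) (t : ℕ), (∀ i, 0 ≤ p i ∧ p i ≤ 1) →
  (∀ r : ℕ, 1 ≤ r → r ≤ Rm cl p t → (r : ℝ) / 512 - 1 / 4 ≤ vs p (Gc cl p t r)) ∧
  (∀ i ∈ Sc cl t, vs p ((Sc cl t).filter (fun u => i < u)) ≤ (lv cl p t i : ℝ) + 1) ∧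
  (∀ i ∈ Sc cl t, lv cl p t i < Rm cl p t) ∧ vs p (Sc cl t) ≤ (Rm cl p t : ℝ) + 1

/-- **HPt** (pointwise inequality). Uses: S_TPtw, S_HLv.
Proof. Case 1: `T` meets `Sc cl t`. S_TPtw with `m = Rm + 1`, `Bl = Bc cl p t` (some `i ∈ T ∩ Sc`, `lv i < Rm`, is in the block `lv i`): its first sum is the first sum here. Its second sum: if `T` meets `Bc b` choose `i ∈ T ∩ Bc b` (`lv i = b`); so `∑_b (if ..) ≤ ∑_{i ∈ Sc} (if i ∈ T then 1/(lv i + 1)^2 U^2 else 0)` (for each `b` the term is at most the sum over the `i ∈ Bc b`; the blocks are disjoint: Finset.sum_fiberwise_of_maps_to). All other terms are `≥ 0`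
(`log (D+1) ≥ 0`). Case 2: `T` is disjoint from `Sc cl t`, so from all `Gc r` (Gc_sub). `X = (D+1)(Rm+1) ≥ 1`: `d^2 lg |U| (2d) ≤ d^2 log X + U^2/X^2` (if `lg > 0`: `U, d ≠ 0`, `log (|U|/|2 d|) = log X + (1/2) log (U^2/(4 d^2 X^2))`, `log x ≤ x`), `log X = log (D+1) + log (Rm+1)`, `log (Rm+1) ≤ ∑_{1 ≤ r ≤ Rm} 1/r` (induction, as in RT/TPtw.lean). -/
def S_HPt : Prop := ∀ (cl : ℕ → ℕ) (p : ℕ → ℝ) (t D : ℕ) (T : Finset ℕ) (U d : ℝ), (∀ i, 0 ≤ p i ∧ p i ≤ 1) →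
  d ^ 2 * lg |U| (2 * d) ≤ d ^ 2 * Real.log ((D : ℝ) + 1) +
    ∑ r ∈ range (Rm cl p t + 1), (if 1 ≤ r ∧ Disjoint T (Gc cl p t r) then (1 : ℝ) / r * d ^ 2 else 0) +
    ∑ i ∈ Sc cl t, (if i ∈ T then (1 : ℝ) / ((lv cl p t i : ℝ) + 1) ^ 2 * U ^ 2 else 0) +
    1 / (((D : ℝ) + 1) ^ 2 * ((Rm cl p t : ℝ) + 1) ^ 2) * U ^ 2

/-- **HP1** (the small sums). Uses: S_TPar, UI.S_UHar, S_HLv. MODEL: UI/UPt1.lean.
Proof. For fixed `r`, `1 ≤ r ≤ Rm`: `∑_{T ⊆ range t, Disjoint T (Gc r)} wt d^2 = Av (range t \ Gc r) ((Av (Gc r) h)^2) z` (S_TPar (2)), and `(Av (Gc r) h y)^2 ≤ min 1 (32 κ/sqrt r) Av (Gc r) (h^2) y`: `|Av (Gc r) h| ≤ Av (Gc r) (h^2) ≤ 1`; `r < 1024`: `1 ≤ 32/sqrt r ≤ 32 κ/sqrt r`; `r ≥ 1024`: `vs (Gc r) ≥ r/512 - 1/4 ≥ r/1024 ≥ 1` (S_HLv (1)), SM: `≤ κ/sqrt (r/1024) = 32 κ/sqrt r`.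
So it is `≤ min 1 (32 κ/sqrt r) WW` (Av_mono, Av_mul, Av_sdiff). Exchange the sums, S_UHar with `32 κ`. -/
def S_HP1 : Prop := ∀ (a p : ℕ → ℝ) (F : ℝ → ℝ) (cl : ℕ → ℕ) (n t κ : ℕ), (∀ i, 0 ≤ p i ∧ p i ≤ 1) → (∀ y, F y = 1 ∨ F y = -1) →
  1 ≤ κ → SM a p F cl n κ → t < n → ∀ z : ℝ,
  ∑ T ∈ (range t).powerset.erase ∅, ∑ r ∈ range (Rm cl p t + 1), (if 1 ≤ r ∧ Disjoint T (Gc cl p t r) then
    (1 : ℝ) / r * (wt p T * Co a p (range t) T (hA (a t) F) z ^ 2) else 0) ≤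
  (3 + 2 * Real.log (32 * (κ : ℝ))) * WW a p F t z

/-- **HNd** (node inequality). Uses: S_TPar, S_HPt, S_HP1. MODEL: UI/UNod.lean.
Proof. `Nd = ∑_T wt d^2 + ∑_T wt d^2 lg |U| (2d)`; the first sum is `WW` (S_TPar (1)). `T = ∅`: `d = Av h z`, `|U| ≤ 1`, `d^2 lg |U| (2d) ≤ |d|/2 ≤ WW/2` (`log x ≤ x`, `|h| = h^2`). `T ≠ ∅`: S_HPt, multiply by `wt ≥ 0`, sum over `T ≠ ∅`: `∑ wt d^2 ≤ WW`, S_HP1, `∑_T ∑_{i ∈ Sc} (if i ∈ T ..) ≤ ∑_{i ∈ Sc} 1/(lv+1)^2 ch t i`, and Qt. `1 + 1/2 + 3 ≤ 5`. -/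
def S_HNd : Prop := ∀ (a p : ℕ → ℝ) (F : ℝ → ℝ) (cl : ℕ → ℕ) (n t D κ : ℕ), (∀ i, 0 ≤ p i ∧ p i ≤ 1) → (∀ y, F y = 1 ∨ F y = -1) →
  1 ≤ κ → SM a p F cl n κ → t < n → ∀ z : ℝ,
  Nd a p F t z ≤ (5 + 2 * Real.log (32 * (κ : ℝ)) + Real.log ((D : ℝ) + 1)) * WW a p F t z +
    ∑ i ∈ Sc cl t, 1 / ((lv cl p t i : ℝ) + 1) ^ 2 * ch a p F t i z +
    1 / (((D : ℝ) + 1) ^ 2 * ((Rm cl p t : ℝ) + 1) ^ 2) * Qt a p F t z

/-! ## Part 2: the gate inequality -/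

/-- **HCg** (charge). Uses: S_TPar.
Proof. `g = gA (p t) (a t) F = fun y => Av a p {t} F y` (Av_insert, Av_empty), `Qt y = Av (range t) (g^2) y - (Av (range t) g y)^2` (S_TPar (4)). `g^2 ≤ Av {t} (F^2)` (Av_var_nonneg), `Av (range t) (Av {t} G) = Av (range (t+1)) G` (Av_union). So `Qt y ≤ Av (range (t+1)) (F^2) y - (Av (range (t+1)) F y)^2`. Average over `Ico (t+1) n`: `Av (Ico (t+1) n) (Av (range (t+1)) G) = Av (range n) G` and `Av (Ico ..) (X^2) ≥ (Av (Ico ..) X)^2` (Av_var_nonneg):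
`≤ Av (range n) (F^2) z - (Av (range n) F z)^2 = ∑_{T ≠ ∅} wt Co^2 ≤ ∑ |T| wt Co^2` (S_TPar (4)). -/
def S_HCg : Prop := ∀ (a p : ℕ → ℝ) (n t : ℕ) (F : ℝ → ℝ) (z : ℝ), (∀ i, 0 ≤ p i ∧ p i ≤ 1) → t < n →
  Av a p (Ico (t + 1) n) (Qt a p F t) z ≤ Ti a p (range n) F z

/-- **HC1** (sum of the charges of `i`). Uses: UI.S_UCls, S_HLv.
Proof. S_UCls with `P t := cl t = cl i`, `v t = p t (1 - p t)`, `l t = lv cl p t i + 1`: for `i < t`, `cl t = cl i`: `i ∈ Sc cl t` and `(Ico (i+1) t).filter (cl · = cl i) = (Sc cl t).filter (i < ·)`; S_HLv (2). -/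
def S_HC1 : Prop := ∀ (cl : ℕ → ℕ) (p : ℕ → ℝ) (i n : ℕ), (∀ i, 0 ≤ p i ∧ p i ≤ 1) →
  ∑ t ∈ (Ico (i + 1) n).filter (fun t => cl t = cl i), p t * (1 - p t) / ((lv cl p t i : ℝ) + 1) ^ 2 ≤ 9 / 2

/-- **HC2** (sum over the classes). Uses: UI.S_UCls, S_HLv.
Proof. Group the `t < n` by the class `c = cl t < D` (Finset.sum_fiberwise_of_maps_to with `range D`). For fixed `c`: the term `t = 0` is `≤ 1/4`; the others: S_UCls with `i = 0`, `P t := cl t = c`, `l t = Rm cl p t + 1`: for `P t` the set `(Ico 1 t).filter P` is contained in `Sc cl t`, S_HLv (4). -/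
def S_HC2 : Prop := ∀ (cl : ℕ → ℕ) (p : ℕ → ℝ) (n D : ℕ), (∀ i, 0 ≤ p i ∧ p i ≤ 1) → (∀ t, t < n → cl t < D) →
  ∑ t ∈ range n, p t * (1 - p t) / ((Rm cl p t : ℝ) + 1) ^ 2 ≤ 5 * (D : ℝ)

/-- **HGt** (gate inequality, variables `range n`). Uses: UI.S_UTel, UI.S_UInf, UI.S_UChg, S_HNd, S_HCg, S_HC1, S_HC2. MODEL: UI/UGat.lean.
Proof. `c = 5 + 2 log (32 κ) + log (D+1)`. S_UTel, S_HNd (Av_mono, Av_add, Av_mul, Av_sum), S_UInf (2): left side `≤ ∑_{t<n} 28 v_t (c Iv t + ∑_{i ∈ Sc cl t} (lv+1)^(-2) Av (Ico (t+1) n) (ch t i) z + ((D+1)(Rm+1))^(-2) Av (Ico (t+1) n) (Qt) z)`. S_UChg: `Av .. (ch t i) ≤ 4 v_i Iv i`, S_HCg. Exchange the sums: `∑_{t<n} ∑_{i ∈ Sc cl t} = ∑_{i<n} ∑_{t ∈ Ico (i+1) n, cl t = cl i}`, S_HC1: the second part is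
`≤ 28 (9/2) ∑_i 4 v_i Iv i = 126 Ti` (S_UInf (1)); S_HC2: the third is `≤ 28 * 5 D/(D+1)^2 Ti ≤ 35 Ti` (`Ti ≥ 0`). Total `(7 c + 126 + 35) Ti ≤ (200 + 14 log (32 κ) + 7 log (D+1)) Ti`. -/
def S_HGt : Prop := ∀ (a p : ℕ → ℝ) (F : ℝ → ℝ) (cl : ℕ → ℕ) (n D κ : ℕ), (∀ i, 0 ≤ p i ∧ p i ≤ 1) → (∀ y, F y = 1 ∨ F y = -1) →
  1 ≤ κ → (∀ t, t < n → cl t < D) → SM a p F cl n κ → ∀ z : ℝ,
  ∑ T ∈ (range n).powerset, wt p T * hh (Co a p (range n) T F z ^ 2) ≤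
    (200 + 14 * Real.log (32 * (κ : ℝ)) + 7 * Real.log ((D : ℝ) + 1)) * Ti a p (range n) F z

/-- **HGI** (gate inequality, any set of variables). Uses: UI.S_UEn, UI.S_UTrf, S_HGt. MODEL: UI/UGI.lean.
Proof. `e` from S_UEn for `ρ` (`ρ (e i) ≤ ρ (e j)` for `i ≤ j`), `n = J.card`; S_HGt for `a ∘ e`, `p ∘ e`, `cl ∘ e`, rewrite by S_UTrf as in UI/UGI.lean. SM: for `t < n`, `G ⊆ Sc (cl ∘ e) t`: `G.image e` is a subset of the filter in the hypothesis for `e t ∈ J` (`e u ≠ e t`, `ρ (e u) ≤ ρ (e t)`), `vs (p ∘ e) G = vs p (G.image e)` and `Av (a ∘ e) (p ∘ e) G H z = Av a p (G.image e) H z` (Finset.sum_image; Finset.induction_on `G`, Finset.image_insert, Av_insert). -/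
def S_HGI : Prop := ∀ (a p : ℕ → ℝ) (F : ℝ → ℝ) (cl : ℕ → ℕ) (ρ : ℕ → ℝ) (J : Finset ℕ) (D κ : ℕ), (∀ i, 0 ≤ p i ∧ p i ≤ 1) →
  (∀ y, F y = 1 ∨ F y = -1) → 1 ≤ κ → (∀ t ∈ J, cl t < D) →
  (∀ t ∈ J, ∀ G, G ⊆ J.filter (fun u => u ≠ t ∧ cl u = cl t ∧ ρ u ≤ ρ t) → 1 ≤ vs p G → ∀ z,
    |Av a p G (hA (a t) F) z| ≤ κ / Real.sqrt (vs p G)) → ∀ z : ℝ,
  Hs a p J F z ≤ (200 + 14 * Real.log (32 * (κ : ℝ)) + 7 * Real.log ((D : ℝ) + 1)) * Ti a p J F z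

/-! ## Part 3: halfspaces -/

/-- **HLO** (Littlewood-Offord for biased bits). Uses: S_TPar.
Proof. `V = vs p G > 0`, `X = Wn θ A`, `q = Av b p G X z ∈ [0, 1]`. For `u ∈ G`: `c0 u = Av b p (G.erase u) X z`, `c1 u = Av b p (G.erase u) X (z + b u)`, so `q = p_u c0 + (1 - p_u) c1` (Av_insert) and `Co b p G {u} X z = (c0 - c1)/2`. For a step function `H = Hv τ` (`0 ≤ H ≤ 1`, monotone) put `d u = Av b p (G.erase u) (fun y => H (y + b u) - H y) z = - 2 Co b p G {u} H z ≥ 0` (Df_insert, Df_empty, Av_shift).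
(i) Bessel: `∑_{u ∈ G} 4 v_u (Co b p G {u} Y z)^2 ≤ Av (Y^2) - (Av Y)^2` for every `Y` (S_TPar (4), `wt p {u} = 4 v_u`, the sets `{u}` are different and nonempty). For `H`: `Av (H^2) - (Av H)^2 = m - m^2 ≤ 1/4` (`m = Av H`), so `∑ v_u (d u)^2 ≤ 1/4` and `∑ v_u d u ≤ sqrt (∑ v_u) sqrt (∑ v_u (d u)^2) ≤ sqrt V/2` (Cauchy-Schwarz: Finset.sum_mul_sq_le_sq_mul_sq or inner_mul_le_norm_mul_norm).
(ii) `c1 u ≤ d u` for `H = Hv (θ - A)`: if `X (y + b u) = 1` (`θ - A ≤ y + b u < θ`) then `H (y + b u) = 1` and `y < θ - b u ≤ θ - A`, `H y = 0`. `c0 u ≤ d' u` for `H = Hv θ`: if `X y = 1` then `y < θ`, `y + b u ≥ θ - A + b u ≥ θ`. So `∑ v_u (c0 + c1) ≤ sqrt V`. (iii) `c0 + c1 = 2 q + (1 - 2 p_u)(c0 - c1) = 2 q + 2 (1 - 2 p_u) Co_u`, `Co_u = Co b p G {u} X z`, `|1 - 2 p_u| ≤ 1`, `∑ 4 v_u Co_u^2 ≤ Av (X^2) = q`: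
`∑ v_u (c0 + c1) ≥ 2 V q - 2 sqrt V sqrt (q/4) = 2 V q - sqrt (V q)`. So `2 V q ≤ sqrt V + sqrt V sqrt q ≤ 2 sqrt V`, `q ≤ 1/sqrt V`. -/
def S_HLO : Prop := ∀ (b p : ℕ → ℝ) (G : Finset ℕ) (A θ z : ℝ), (∀ i, 0 ≤ p i ∧ p i ≤ 1) → 0 < A → (∀ u ∈ G, A ≤ b u) →
  0 < vs p G → Av b p G (Wn θ A) z ≤ 1 / Real.sqrt (vs p G)

/-- **HLS** (weights of both signs, longer windows). Uses: S_HLO.
Proof. `c = 0`: the function is `0` (Av_const). Let `c ≠ 0`, `A = |c|/L > 0`, `A ≤ |b u|` on `G`. Signs: `Av b p G Y z = Av (aA b) (pA b p) G Y (z + nA b G)` for every `Y` (UI/Spec3.lean: aA, pA, nA; Finset.induction_on `G` for all `z`: Av_insert; for `b i < 0`: `p c(z) + (1-p) c(z + b i) = pA c(z') + (1 - pA) c(z' + |b i|)` with `z' = z + b i`), `vs (pA b p) G = vs p G`. The function is `1` exactly on `[θ - c, θ)` (`c > 0`) or `[θ, θ - c)` (`c < 0`);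 so it is
`≤ ∑ q ∈ range L, Wn (θ - q A) A y`, respectively `≤ ∑ q ∈ range L, Wn (θ + (q+1) A) A y` (`q = ⌊(θ - y)/A⌋` type choice: the windows `[θ - (q+1) A, θ - q A)` cover `[θ - L A, θ)`; induction on `L` or Nat.floor). Av_mono, Av_sum, S_HLO. -/
def S_HLS : Prop := ∀ (b p : ℕ → ℝ) (G : Finset ℕ) (c θ z : ℝ) (L : ℕ), (∀ i, 0 ≤ p i ∧ p i ≤ 1) → 1 ≤ L →
  (∀ u ∈ G, |c| ≤ L * |b u|) → 0 < vs p G →
  Av b p G (fun y => if (θ ≤ y ↔ θ ≤ y + c) then 0 else 1) z ≤ L / Real.sqrt (vs p G)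

/-- **HAd** (additive maps). Uses: nothing.
Proof. `ℝ` is a vector space over `ℚ` of infinite dimension (Real.rank_rat_real or: a finite dimensional one would be countable), so there are a basis `B : Module.Basis ι ℚ ℝ` (Module.Basis.ofVectorSpace) with `ι` infinite and an injection `e : ℕ → ι` (Infinite.natEmbedding). `a i = B (e i)`, `β j = B.constr ℚ (fun x => if h : ∃ i, e i = x then b j h.choose else 0)` (a `ℚ`-linear map `ℝ → ℝ`; Basis.constr_basis). -/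
def S_HAd : Prop := ∀ b : ℕ → ℕ → ℝ, ∃ (a : ℕ → ℝ) (β : ℕ → ℝ → ℝ), (∀ j x y, β j (x + y) = β j x + β j y) ∧ ∀ j i, β j (a i) = b j i

/-- `F` has values `1, -1` and depends only on the truth values of `θ j ≤ β j y`, `j < K` -/
def FK (F : ℝ → ℝ) (β : ℕ → ℝ → ℝ) (θ : ℕ → ℝ) (K : ℕ) : Prop := (∀ y, F y = 1 ∨ F y = -1) ∧
  ∀ y y', (∀ j, j < K → (θ j ≤ β j y ↔ θ j ≤ β j y')) → F y = F y'

/-- **HSm** (small mean for functions of `K` halfspaces). Uses: S_HLS.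
Proof. `|hA (a t) F y| ≤ ∑ j ∈ range K, (if (θ j ≤ β j y ↔ θ j ≤ β j y + b j t) then 0 else 1)` (`β j (y + a t) = β j y + b j t`; if all the equivalences hold then `F y = F (y + a t)`, `hA = 0`; otherwise the sum is `≥ 1 ≥ |hA|`). `β j 0 = 0`, `β j (z + ∑ i ∈ S, a i) = β j z + ∑ i ∈ S, b j i` (induction on `S`), so `Av a p G (fun y => x (β j y)) z = Av (b j) p G x (β j z)` (unfold Av). `|Av h| ≤ Av |h| ≤ ∑_j Av ..` (Av_mono, Av_sum), S_HLS for `c = b j t`. -/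
def S_HSm : Prop := ∀ (a p : ℕ → ℝ) (β b : ℕ → ℝ → ℝ) (w : ℕ → ℕ → ℝ) (θ : ℕ → ℝ) (K L t : ℕ) (F : ℝ → ℝ) (G : Finset ℕ), b = β →
  (∀ i, 0 ≤ p i ∧ p i ≤ 1) → 1 ≤ L → (∀ j x y, β j (x + y) = β j x + β j y) → (∀ j i, β j (a i) = w j i) → FK F β θ K →
  (∀ j, j < K → ∀ u ∈ G, |w j t| ≤ L * |w j u|) → 0 < vs p G → ∀ z,
  |Av a p G (hA (a t) F) z| ≤ K * L / Real.sqrt (vs p G)

/-- **HGK** (gate inequality for functions of `K` halfspaces). Uses: S_HGI, S_HSm.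
Proof. S_HGI with `κ = K * L`; for `t ∈ J`, `u ∈ G`: `u ∈ J`, `u ≠ t`, `cl u = cl t`, `ρ u ≤ ρ t`, so `|w j t| ≤ L |w j u|`; S_HSm (`1 ≤ vs`). -/
def S_HGK : Prop := ∀ (a p : ℕ → ℝ) (β : ℕ → ℝ → ℝ) (w : ℕ → ℕ → ℝ) (θ : ℕ → ℝ) (K L D : ℕ) (F : ℝ → ℝ) (cl : ℕ → ℕ) (ρ : ℕ → ℝ)
  (J : Finset ℕ), (∀ i, 0 ≤ p i ∧ p i ≤ 1) → 1 ≤ K → 1 ≤ L → (∀ j x y, β j (x + y) = β j x + β j y) → (∀ j i, β j (a i) = w j i) →
  FK F β θ K → (∀ t ∈ J, cl t < D) →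
  (∀ j, j < K → ∀ u ∈ J, ∀ t ∈ J, u ≠ t → cl u = cl t → ρ u ≤ ρ t → |w j t| ≤ L * |w j u|) → ∀ z : ℝ,
  Hs a p J F z ≤ (200 + 14 * Real.log (32 * ((K : ℝ) * L)) + 7 * Real.log ((D : ℝ) + 1)) * Ti a p J F z

/-- **HEn** (THE THEOREM: the hereditary inequality). Uses: S_HAd, S_HGK, MS.S_MCo. MODEL: MS/MEn.lean.
Proof. `a`, `β` from S_HAd for `w`. `F y = if ∃ U, U ⊆ range M ∧ (∀ j < K, (θ j ≤ β j y ↔ θ j ≤ ∑ i ∈ U, w j i)) ∧ φ U = true then -1 else 1` (classical): FK holds. For `U ⊆ range M`: `β j (∑ i ∈ U, a i) = ∑ i ∈ U, w j i`, so `F (∑ i ∈ U, a i) = if φ U then -1 else 1 = Ph φ (∑ i ∈ U, tw i)` (`⌊∑ i ∈ U, tw i⌋₊.bitIndices.toFinset = U`, as in MS/MEn.lean). For `J ⊆ range M`, `U ⊆ range M \ J`, `U' ⊆ J`: both sides at `U ∪ U'`;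
MS.S_MCo: `Hs tw p J (Ph φ) (∑ i ∈ U, tw i) = Hs a p J F (∑ i ∈ U, a i)`, the same for `Ti`; S_HGK for `J`. -/
def S_HEn : Prop := ∀ (K L D M : ℕ) (w : ℕ → ℕ → ℝ) (θ : ℕ → ℝ) (cl : ℕ → ℕ) (ρ : ℕ → ℝ) (φ : Finset ℕ → Bool) (p : ℕ → ℝ), 1 ≤ K → 1 ≤ L →
  (∀ i, 0 ≤ p i ∧ p i ≤ 1) → (∀ i, i < M → cl i < D) →
  (∀ j u i, j < K → u < M → i < M → u ≠ i → cl u = cl i → ρ u ≤ ρ i → |w j i| ≤ L * |w j u|) →
  (∀ U U' : Finset ℕ, U ⊆ range M → U' ⊆ range M → (∀ j, j < K → (θ j ≤ ∑ i ∈ U, w j i ↔ θ j ≤ ∑ i ∈ U', w j i)) → φ U = φ U') →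
  AG.Hd (200 + 14 * Real.log (32 * ((K : ℝ) * L)) + 7 * Real.log ((D : ℝ) + 1)) p M φ

/-- **HFn** (final statement). Uses: S_Vsm, S_TFin, S_AHs, S_HEn. MODEL for the last part: RT/TFin.lean.
Proof. `C0` from S_TFin, `c = 200 + 14 log (32 K L) + 7 log (D+1) ≤ 400 log (2 + K L D)` (`K, L, D ≥ 1`, `log 3 ≥ 1.09`, `log 32 ≤ 3.5`), `K' = log 2 * C0 * w + 23 + 4 c`. The functions in `RG w` have values `1, -1` (induction on RG as in RT/TFin.lean), so `Cp P u`. `hh (x^2) = log 2 * (x^2 * Real.logb 2 (1/x^2))`, so S_TFin gives `∑_{S ≠ ∅} hh (coeff (u i) S ^2) ≤ log 2 * C0 * w * (influence - (1 - c^2)) ≤ K' (..)`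
(`influence (u i) - (1 - coeff ∅^2) ≥ 0`: S_Vsm, `R.card ≥ 1` for `R ≠ ∅`), so `Shp K' (u i)`; S_HEn for `p = pb u` (`0 ≤ pb ≤ 1`: S_Vsm), S_AHs: `Shp K' f`. Then as in RT/TFin.lean: divide by `log 2`; `hh (coeff f ∅^2) ≤ 1 - coeff f ∅ ^2` for the second statement, Parseval for the last. -/
def S_HFn : Prop := ∃ C : ℝ, 0 < C ∧ ∀ w : ℕ, 1 ≤ w → ∀ (N M K L D : ℕ) (P : ℕ → Finset (Fin N)) (u : ℕ → (Fin N → Bool) → ℝ)
  (b : ℕ → ℕ → ℝ) (θ : ℕ → ℝ) (cl : ℕ → ℕ) (ρ : ℕ → ℝ) (φ : Finset ℕ → Bool), 1 ≤ K → 1 ≤ L → 1 ≤ D →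
  (∀ i j, i ≠ j → Disjoint (P i) (P j)) → (∀ i, Dp (P i) (u i)) → (∀ i, RG w (u i)) → (∀ i, i < M → cl i < D) →
  (∀ j v i, j < K → v < M → i < M → v ≠ i → cl v = cl i → ρ v ≤ ρ i → |b j i| ≤ L * |b j v|) →
  (∀ U U' : Finset ℕ, U ⊆ range M → U' ⊆ range M → (∀ j, j < K → (θ j ≤ ∑ i ∈ U, b j i ↔ θ j ≤ ∑ i ∈ U', b j i)) → φ U = φ U') →
  ∀ f : (Fin N → Bool) → ℝ, (∀ x, f x = if φ ((range M).filter (fun i => u i x = -1)) then -1 else 1) →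
  ∑ S ∈ (univ : Finset (Finset (Fin N))).erase ∅, coeff f S ^ 2 * Real.logb 2 (1 / coeff f S ^ 2) ≤
    C * (w + Real.log (2 + (K : ℝ) * L * D)) * (influence f - (1 - coeff f ∅ ^ 2)) ∧
  specEntropy f ≤ C * (w + Real.log (2 + (K : ℝ) * L * D)) * influence f ∧
  ∃ S : Finset (Fin N), (2 : ℝ) ^ (-(C * (w + Real.log (2 + (K : ℝ) * L * D)) * influence f / 2)) ≤ |coeff f S|

end Pool.Agent.MP3145b1.HS
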